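import Pool.Agent.Helper35.OG.Arcs

/-!
# Dimension counts
-/

set_option autoImplicit false

open Finset

namespace Pool.Agent.Helper35.OG

theorem sum_half {X A : Type} [Fintype X] [AddCommMonoid A] (σ : X → X) (h1 : ∀ x, σ (σ x) = x)
    (h2 : ∀ x, σ x ≠ x) (o : X → ℕ) (ho : Function.Injective o) (f : X → A) :
    ∑ x, f x = ∑ r : {x : X // o x < o (σ x)}, (f r.1 + f (σ r.1)) := by
  have hne : ∀ x, o (σ x) ≠ o x := fun x h => h2 x (ho h)
  rw [Finset.sum_add_distrib, ← Finset.sum_filter_add_sum_filter_not Finset.univ (fun x => o x < o (σ x))]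
  congr 1
  · rw [Finset.sum_subtype (F := inferInstance) (p := fun x : X => o x < o (σ x))
      (Finset.univ.filter fun x => o x < o (σ x)) (by intro x; simp)]
  · have h3 : ∑ r : {x : X // o x < o (σ x)}, f (σ r.1) =
        ∑ x ∈ Finset.univ.filter (fun x => o x < o (σ x)), f (σ x) := by
      rw [Finset.sum_subtype (F := inferInstance) (p := fun x : X => o x < o (σ x))
        (Finset.univ.filter fun x => o x < o (σ x)) (by intro x; simp)]
    rw [h3]
    apply Finset.sum_nbij' σ σ
    · intro x hx
      rw [Finset.mem_filter] at hx ⊢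
      refine ⟨Finset.mem_univ _, ?_⟩
      rw [h1]
      have := hne x
      omega
    · intro x hx
      rw [Finset.mem_filter] at hx ⊢
      refine ⟨Finset.mem_univ _, ?_⟩
      rw [h1]
      omega
    · intro x _; exact h1 x
    · intro x _; exact h1 x
    · intro x _; rw [h1]

variable {V : Type} [Fintype V] [DecidableEq V] {G : SimpleGraph V} [DecidableRel G.Adj]

/-- An auxiliary order on the darts. -/
noncomputable def dord (x : G.Dart) : ℕ := (Fintype.equivFin G.Dart x : ℕ)

theorem dord_inj : Function.Injective (dord : G.Dart → ℕ) := by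
  intro x y h
  exact (Fintype.equivFin G.Dart).injective (Fin.ext h)

theorem symm_ne (x : G.Dart) : x.symm ≠ x := x.symm_ne

/-- The edges, given by one of their darts. -/
abbrev ERep (G : SimpleGraph V) [DecidableRel G.Adj] : Type := {x : G.Dart // dord x < dord x.symm}

theorem card_ERep : Nat.card G.edgeSet = Fintype.card (ERep G) := by
  have h1 := sum_half (fun x : G.Dart => x.symm) (fun x => x.symm_symm) symm_ne dord dord_inj (fun _ => (1 : ℕ))
  simp only [Finset.sum_const, smul_eq_mul, mul_one, Finset.card_univ] at h1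
  have h3 : Fintype.card G.Dart = Fintype.card (ERep G) * 2 := h1
  have h2 := G.dart_card_eq_twice_card_edges
  rw [Nat.card_eq_fintype_card, ← SimpleGraph.edgeFinset_card]
  omega

/-- The edge of a dart. -/
noncomputable def erep (x : G.Dart) : ERep G :=
  if h : dord x < dord x.symm then ⟨x, h⟩ else ⟨x.symm, by
    rw [x.symm_symm]
    have : dord x.symm ≠ dord x := fun h' => symm_ne x (dord_inj h')
    omega⟩

theorem erep_rep (r : ERep G) : erep r.1 = r := by
  unfold erep
  rw [dif_pos r.2]

theorem erep_symm (x : G.Dart) : erep x.symm = erep x := by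
  unfold erep
  have : dord x.symm ≠ dord x := fun h' => symm_ne x (dord_inj h')
  by_cases h : dord x < dord x.symm
  · rw [dif_pos h, dif_neg (by rw [x.symm_symm]; omega)]
    apply Subtype.ext
    exact x.symm_symm
  · rw [dif_neg h, dif_pos (by rw [x.symm_symm]; omega)]

theorem erep_eq (x : G.Dart) : (erep x).1 = x ∨ (erep x).1 = x.symm := by
  unfold erep
  by_cases h : dord x < dord x.symm
  · rw [dif_pos h]; exact Or.inl rfl
  · rw [dif_neg h]; exact Or.inr rfl

/-- A function on the edges as a function on the flags. -/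
noncomputable def pull (ε : ERep G → F2) (p : Flag G) : F2 := ε (erep p.1)

theorem pull_side (ε : ERep G → F2) (p : Flag G) : pull ε (side p) = pull ε p := rfl

theorem pull_across (ε : ERep G → F2) (p : Flag G) : pull ε (across p) = pull ε p := by
  show ε (erep p.1.symm) = ε (erep p.1)
  rw [erep_symm]

variable (S : GMap G)

/-- The boundary of the quadrilaterals at the edges. -/
noncomputable def dl : (ERep G → F2) →ₗ[F2] (S.Rep → F2) where
  toFun ε r := pull ε r.1 + pull ε (S.nxt r.1)
  map_add' x y := by
    funext r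
    show (x _ + y _) + (x _ + y _) = (x _ + x _) + (y _ + y _)
    ring
  map_smul' c x := by
    funext r
    show c * x _ + c * x _ = c * (x _ + x _)
    ring

theorem finrank_dl (hG : G.Connected) :
    Nat.card G.edgeSet ≤ Module.finrank F2 (LinearMap.range (dl S)) + 1 := by
  have h1 := LinearMap.finrank_range_add_finrank_ker (dl S)
  rw [Module.finrank_fintype_fun_eq_card] at h1
  have h2 : Module.finrank F2 (LinearMap.ker (dl S)) ≤ 1 := by
    apply finrank_const_le
    intro ε hε e e'
    have hinv : ∀ p, pull ε (S.nxt p) = pull ε p := by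
      have h3 : ∀ r : S.Rep, pull ε (S.nxt r.1) = pull ε r.1 := by
        intro r
        have h4 : pull ε r.1 + pull ε (S.nxt r.1) = 0 := congrFun hε r
        calc pull ε (S.nxt r.1) = pull ε r.1 + (pull ε r.1 + pull ε (S.nxt r.1)) := by
              rw [← add_assoc, f2_add_self, zero_add]
          _ = pull ε r.1 := by rw [h4, add_zero]
      intro p
      have h5 := h3 (S.rep p)
      rcases rep_eq S p with h | h
      · rw [h] at h5; exact h5
      · rw [h, S.nxt_nxt] at h5; exact h5.symm
    have h6 := all_const S hG (pull ε) hinv (pull_side ε) (pull_across ε) (e.1, true) (e'.1, true)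
    have h7 : ε (erep e.1) = ε (erep e'.1) := h6
    rw [erep_rep, erep_rep] at h7
    exact h7
  rw [card_ERep]
  omega

/-- The incidences of the corners with the vertices and the faces. -/
noncomputable def inc (r : S.Rep) : V ⊕ S.Face → F2
  | Sum.inl v => if r.1.1.fst = v then 1 else 0
  | Sum.inr f => if S.face r.1 = f then 1 else 0

theorem finrank_orth_inc [Nontrivial V] (hG : G.Connected) :
    Module.finrank F2 (orth (inc S)) + (Nat.card V + Nat.card S.Face) ≤ Fintype.card S.Rep + 1 := by
  have h := finrank_orth_le (inc S) (by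
    intro w hw
    have h1 : ∀ r : S.Rep, w (Sum.inl r.1.1.fst) + w (Sum.inr (S.face r.1)) = 0 := by
      intro r
      have h2 := hw r
      rw [Fintype.sum_sum_type] at h2
      refine Eq.trans ?_ h2
      congr 1
      · show _ = ∑ v, (if r.1.1.fst = v then 1 else 0) * w (Sum.inl v)
        simp only [ite_mul, one_mul, zero_mul, Finset.sum_ite_eq, Finset.mem_univ, if_true]
      · show _ = ∑ f, (if S.face r.1 = f then 1 else 0) * w (Sum.inr f)
        simp only [ite_mul, one_mul, zero_mul, Finset.sum_ite_eq, Finset.mem_univ, if_true]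
    have h2 : ∀ p : Flag G, w (Sum.inl p.1.fst) = w (Sum.inr (S.face p)) := by
      intro p
      have h3 := h1 (S.rep p)
      rw [rep_fst, inv_rep S S.face (face_nxt S) p] at h3
      calc w (Sum.inl p.1.fst) = w (Sum.inl p.1.fst) + (w (Sum.inr (S.face p)) + w (Sum.inr (S.face p))) := by
            rw [f2_add_self, add_zero]
        _ = (w (Sum.inl p.1.fst) + w (Sum.inr (S.face p))) + w (Sum.inr (S.face p)) := by ring
        _ = w (Sum.inr (S.face p)) := by rw [h3, zero_add]
    have h3 := all_const S hG (fun p => w (Sum.inl p.1.fst))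
      (by intro p; show w (Sum.inl (S.nxt p).1.fst) = w (Sum.inl p.1.fst); rw [S.nxt_fst])
      (by intro p; rfl)
      (by
        intro p
        show w (Sum.inl (across p).1.fst) = w (Sum.inl p.1.fst)
        rw [h2, face_across, h2])
    have h4 : ∀ y : V ⊕ S.Face, ∃ p : Flag G, w y = w (Sum.inl p.1.fst) := by
      rintro (v | f)
      · obtain ⟨p, hp⟩ := exists_flag hG v
        exact ⟨p, by rw [hp]⟩
      · obtain ⟨p, hp⟩ := face_surj S f
        exact ⟨p, by rw [h2, hp]⟩
    intro y y'
    obtain ⟨p, hp⟩ := h4 y
    obtain ⟨q, hq⟩ := h4 y'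
    rw [hp, hq]
    exact h3 p q)
  rw [Fintype.card_sum] at h
  rw [Nat.card_eq_fintype_card, Nat.card_eq_fintype_card]
  exact h

theorem dl_le_orth : LinearMap.range (dl S) ≤ orth (inc S) := by
  rintro _ ⟨ε, rfl⟩
  rw [mem_orth]
  rintro (v | f)
  · show ∑ r : S.Rep, (pull ε r.1 + pull ε (S.nxt r.1)) * (if r.1.1.fst = v then 1 else 0) = 0
    have h1 : ∑ p : Flag G, pull ε p * (if p.1.fst = v then 1 else 0) = 0 :=
      sum_side (P := fun p : Flag G => pull ε p * (if p.1.fst = v then 1 else 0)) (by intro p; rfl)
    rw [sum_rep S] at h1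
    refine Eq.trans ?_ h1
    apply Finset.sum_congr rfl
    intro r _
    rw [S.nxt_fst, add_mul]
  · show ∑ r : S.Rep, (pull ε r.1 + pull ε (S.nxt r.1)) * (if S.face r.1 = f then 1 else 0) = 0
    have h1 : ∑ p : Flag G, pull ε p * (if S.face p = f then 1 else 0) = 0 :=
      sum_across (P := fun p : Flag G => pull ε p * (if S.face p = f then 1 else 0)) (by
        intro p
        show pull ε (across p) * (if S.face (across p) = f then 1 else 0) = pull ε p * (if S.face p = f then 1 else 0)
        rw [pull_across, face_across])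
    rw [sum_rep S] at h1
    refine Eq.trans ?_ h1
    apply Finset.sum_congr rfl
    intro r _
    rw [face_nxt, add_mul]

variable (T : GMap G)

/-- The class of a set of arcs. -/
noncomputable def cls : (Arc S T → F2) →ₗ[F2] ((S.Rep → F2) ⧸ LinearMap.range (dl S)) :=
  (LinearMap.range (dl S)).mkQ.comp (tt S T)

theorem finrank_cls [Nontrivial V] (hG : G.Connected) :
    ((Module.finrank F2 ((LinearMap.ker (bd (fa S T) (fb S T))).map (cls S T)) : ℕ) : ℤ) ≤ S.eg := by
  have h1 : (LinearMap.ker (bd (fa S T) (fb S T))).map (cls S T) ≤ (orth (inc S)).map (LinearMap.range (dl S)).mkQ := by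
    rintro _ ⟨x, hx, rfl⟩
    refine ⟨tt S T x, ?_, rfl⟩
    rw [SetLike.mem_coe, mem_orth]
    rintro (v | f)
    · exact tt_vertex S T x v
    · show ∑ s, tt S T x s * (if S.face s.1 = f then 1 else 0) = 0
      rw [← bd_face]
      exact congrFun hx f
  have h2 := Submodule.finrank_mono h1
  let f := ((LinearMap.range (dl S)).mkQ).domRestrict (orth (inc S))
  have h3 := LinearMap.finrank_range_add_finrank_ker f
  have h4 : LinearMap.range f = (orth (inc S)).map (LinearMap.range (dl S)).mkQ := LinearMap.range_domRestrict _ _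
  have h5 : Module.finrank F2 (LinearMap.range (dl S)) ≤ Module.finrank F2 (LinearMap.ker f) := by
    let g : (LinearMap.range (dl S)) →ₗ[F2] LinearMap.ker f :=
      { toFun := fun x => ⟨⟨x.1, dl_le_orth S x.2⟩, by
          rw [LinearMap.mem_ker]
          show (LinearMap.range (dl S)).mkQ x.1 = 0
          rw [Submodule.mkQ_apply, Submodule.Quotient.mk_eq_zero]
          exact x.2⟩
        map_add' := by intro x y; rfl
        map_smul' := by intro c x; rfl }
    apply LinearMap.finrank_le_finrank_of_injective (f := g)
    intro x y hxy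
    have := congrArg (fun z => z.1.1) hxy
    exact Subtype.ext this
  rw [h4] at h3
  have h6 := finrank_dl S hG
  have h7 := finrank_orth_inc S hG
  have h8 := card_flag S
  have h9 : Fintype.card (Flag G) = 4 * Nat.card G.edgeSet := by
    rw [Fintype.card_prod, Fintype.card_bool, G.dart_card_eq_twice_card_edges, Nat.card_eq_fintype_card,
      ← SimpleGraph.edgeFinset_card]
    ring
  unfold GMap.eg
  omega

end Pool.Agent.Helper35.OG
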