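import Pool.Agent.Helper35.OG.Lower

/-!
# Switching corners: an orientable map of small Euler genus
-/

set_option autoImplicit false

open Finset

namespace Pool.Agent.Helper35.OG

variable {V : Type} [Fintype V] [DecidableEq V] {G : SimpleGraph V} [DecidableRel G.Adj]

theorem conn_of (n : Flag G → Flag G) (h : ∀ W : Flag G → F2, (∀ x, W (n x) = W x) → (∀ x, W (side x) = W x) →
    ∀ x y : Flag G, x.1.fst = y.1.fst → W x = W y) (p q : Flag G) (hpq : p.1.fst = q.1.fst) :
    Relation.EqvGen (fun x y => y = n x ∨ y = side x) p q := by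
  classical
  by_contra hcon
  have h1 := h (fun x => if Relation.EqvGen (fun x y => y = n x ∨ y = side x) p x then 1 else 0)
    (by
      intro x
      apply if_congr _ rfl rfl
      constructor
      · intro h2
        exact Relation.EqvGen.trans _ _ _ h2 (Relation.EqvGen.symm _ _ (Relation.EqvGen.rel _ _ (Or.inl rfl)))
      · intro h2
        exact Relation.EqvGen.trans _ _ _ h2 (Relation.EqvGen.rel _ _ (Or.inl rfl)))
    (by
      intro x
      apply if_congr _ rfl rfl
      constructor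
      · intro h2
        exact Relation.EqvGen.trans _ _ _ h2 (Relation.EqvGen.symm _ _ (Relation.EqvGen.rel _ _ (Or.inr rfl)))
      · intro h2
        exact Relation.EqvGen.trans _ _ _ h2 (Relation.EqvGen.rel _ _ (Or.inr rfl)))
    p q hpq
  have h2 : (if Relation.EqvGen (fun x y => y = n x ∨ y = side x) p p then (1 : F2) else 0) =
    if Relation.EqvGen (fun x y => y = n x ∨ y = side x) p q then 1 else 0 := h1
  rw [if_pos (Relation.EqvGen.refl p), if_neg hcon] at h2
  exact one_ne_zero h2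

/-- The switch at two flags. -/
def sw (M : GMap G) (q p' : Flag G) (x : Flag G) : Flag G := Equiv.swap q p' (M.nxt (Equiv.swap q p' x))

section switch

variable (M : GMap G) {q p' : Flag G}

theorem sw_sw (x : Flag G) : sw M q p' (sw M q p' x) = x := by
  unfold sw
  rw [Equiv.swap_apply_self, M.nxt_nxt, Equiv.swap_apply_self]

theorem sw_ne (x : Flag G) : sw M q p' x ≠ x := by
  unfold sw
  intro h
  apply M.nxt_ne (Equiv.swap q p' x)
  have := congrArg (Equiv.swap q p') h
  rw [Equiv.swap_apply_self] at this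
  exact this

theorem swap_fst (h : q.1.fst = p'.1.fst) (x : Flag G) : (Equiv.swap q p' x).1.fst = x.1.fst := by
  by_cases h1 : x = q
  · rw [h1, Equiv.swap_apply_left]; exact h.symm
  · by_cases h2 : x = p'
    · rw [h2, Equiv.swap_apply_right]; exact h
    · rw [Equiv.swap_apply_of_ne_of_ne h1 h2]

theorem sw_fst (h : q.1.fst = p'.1.fst) (x : Flag G) : (sw M q p' x).1.fst = x.1.fst := by
  unfold sw
  rw [swap_fst h, M.nxt_fst, swap_fst h]

theorem sw_nxt_q (h1 : p' ≠ q) (h2 : p' ≠ M.nxt q) : sw M q p' (M.nxt q) = p' := by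
  unfold sw
  rw [Equiv.swap_apply_of_ne_of_ne (M.nxt_ne q) h2.symm, M.nxt_nxt, Equiv.swap_apply_left]

theorem sw_q (h1 : p' ≠ q) (h2 : p' ≠ M.nxt q) : sw M q p' q = M.nxt p' := by
  unfold sw
  rw [Equiv.swap_apply_left, Equiv.swap_apply_of_ne_of_ne _ (M.nxt_ne p')]
  intro h
  apply h2
  rw [← h, M.nxt_nxt]

theorem sw_p' (h1 : p' ≠ q) (h2 : p' ≠ M.nxt q) : sw M q p' p' = M.nxt q := by
  rw [← sw_sw M (q := q) (p' := p') (M.nxt q), sw_nxt_q M h1 h2]

theorem sw_nxt_p' (h1 : p' ≠ q) (h2 : p' ≠ M.nxt q) : sw M q p' (M.nxt p') = q := by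
  rw [← sw_q M h1 h2, sw_sw]

theorem sw_other {x : Flag G} (h1 : x ≠ q) (h2 : x ≠ p') (h3 : x ≠ M.nxt q) (h4 : x ≠ M.nxt p') :
    sw M q p' x = M.nxt x := by
  unfold sw
  rw [Equiv.swap_apply_of_ne_of_ne h1 h2, Equiv.swap_apply_of_ne_of_ne]
  · intro h
    apply h3
    rw [← h, M.nxt_nxt]
  · intro h
    apply h4
    rw [← h, M.nxt_nxt]

theorem nxt_inv_of_sw (h1 : p' ≠ q) (h2 : p' ≠ M.nxt q) {W : Flag G → F2} (hW : ∀ x, W (sw M q p' x) = W x)
    (h : W (M.nxt q) = W q) (x : Flag G) : W (M.nxt x) = W x := by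
  have e1 : W p' = W (M.nxt q) := by
    have := hW (M.nxt q)
    rw [sw_nxt_q M h1 h2] at this
    exact this
  have e2 : W (M.nxt p') = W q := by
    have := hW q
    rw [sw_q M h1 h2] at this
    exact this
  by_cases c1 : x = q
  · rw [c1]; exact h
  by_cases c2 : x = p'
  · rw [c2, e1, e2]; exact h.symm
  by_cases c3 : x = M.nxt q
  · rw [c3, M.nxt_nxt]; exact h.symm
  by_cases c4 : x = M.nxt p'
  · rw [c4, M.nxt_nxt, e1, e2]; exact h
  · have := hW x
    rw [sw_other M c1 c2 c3 c4] at this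
    exact this

end switch

/-- one of the two switches keeps the vertices -/
theorem switch_conn (M : GMap G) {q p' : Flag G} (h1 : p' ≠ q) (h2 : p' ≠ M.nxt q) :
    (∀ x y : Flag G, x.1.fst = y.1.fst → Relation.EqvGen (fun x y => y = sw M q p' x ∨ y = side x) x y) ∨
    (∀ x y : Flag G, x.1.fst = y.1.fst → Relation.EqvGen (fun x y => y = sw M q (M.nxt p') x ∨ y = side x) x y) := by
  by_contra hcon
  rw [not_or] at hcon
  obtain ⟨hc1, hc2⟩ := hcon
  have h1' : M.nxt p' ≠ q := by
    intro h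
    apply h2
    rw [← h, M.nxt_nxt]
  have h2' : M.nxt p' ≠ M.nxt q := fun h => h1 (nxt_inj M h)
  have k1 : ∃ W : Flag G → F2, (∀ x, W (sw M q p' x) = W x) ∧ (∀ x, W (side x) = W x) ∧ W (M.nxt q) ≠ W q := by
    by_contra hk
    push Not at hk
    apply hc1
    apply conn_of
    intro W hW1 hW2
    have := nxt_inv_of_sw M h1 h2 hW1 (hk W hW1 hW2)
    intro x y hxy
    exact vertex_const M W this hW2 hxy
  have k2 : ∃ W : Flag G → F2, (∀ x, W (sw M q (M.nxt p') x) = W x) ∧ (∀ x, W (side x) = W x) ∧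
      W (M.nxt q) ≠ W q := by
    by_contra hk
    push Not at hk
    apply hc2
    apply conn_of
    intro W hW1 hW2
    have := nxt_inv_of_sw M h1' h2' hW1 (hk W hW1 hW2)
    intro x y hxy
    exact vertex_const M W this hW2 hxy
  obtain ⟨W1, hW1, hW1s, hW1q⟩ := k1
  obtain ⟨W2, hW2, hW2s, hW2q⟩ := k2
  set p := M.nxt q with hp
  have hnp : M.nxt p = q := by rw [hp, M.nxt_nxt]
  have a1 : W1 p' = W1 p := by
    have := hW1 p
    rw [hp, sw_nxt_q M h1 h2] at this
    exact this
  have a2 : W2 (M.nxt p') = W2 p := by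
    have := hW2 p
    rw [hp, sw_nxt_q M h1' h2'] at this
    exact this
  have b1 : W1 q + W1 p = 1 := by
    rcases f2_cases (W1 q) with h | h <;> rcases f2_cases (W1 p) with h' | h' <;> rw [h, h'] at hW1q ⊢
    · exact absurd rfl hW1q
    · rfl
    · rfl
    · exact absurd rfl hW1q
  have b2 : W2 q + W2 p = 1 := by
    rcases f2_cases (W2 q) with h | h <;> rcases f2_cases (W2 p) with h' | h' <;> rw [h, h'] at hW2q ⊢
    · exact absurd rfl hW2q
    · rfl
    · rfl
    · exact absurd rfl hW2q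
  have hpq : p ≠ q := M.nxt_ne q
  have s1 : ∑ x, (W1 x + W1 p) * (W2 x + W2 p) = 0 := by
    apply sum_side (P := fun x => (W1 x + W1 p) * (W2 x + W2 p))
    intro x
    show (W1 (side x) + W1 p) * (W2 (side x) + W2 p) = (W1 x + W1 p) * (W2 x + W2 p)
    rw [hW1s, hW2s]
  have zp : (W1 p + W1 p) * (W2 p + W2 p) + (if p = q then 1 else 0) = 0 := by
    rw [f2_add_self, zero_mul, if_neg hpq, add_zero]
  have zq : (W1 q + W1 p) * (W2 q + W2 p) + (if q = q then 1 else 0) = 0 := by
    rw [b1, b2, if_pos rfl]; rfl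
  have zp' : (W1 p' + W1 p) * (W2 p' + W2 p) + (if p' = q then 1 else 0) = 0 := by
    rw [a1, f2_add_self, zero_mul, if_neg h1, add_zero]
  have zq' : (W1 (M.nxt p') + W1 p) * (W2 (M.nxt p') + W2 p) + (if M.nxt p' = q then 1 else 0) = 0 := by
    rw [a2, f2_add_self, mul_zero, if_neg h1', add_zero]
  have s2 : ∑ x, ((W1 x + W1 p) * (W2 x + W2 p) + (if x = q then 1 else 0)) = 0 := by
    apply sum_nxt M (P := fun x => (W1 x + W1 p) * (W2 x + W2 p) + (if x = q then 1 else 0))
    intro x
    show (W1 (M.nxt x) + W1 p) * (W2 (M.nxt x) + W2 p) + (if M.nxt x = q then 1 else 0) =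
      (W1 x + W1 p) * (W2 x + W2 p) + (if x = q then 1 else 0)
    by_cases c1 : x = q
    · rw [c1, zq, ← hp, zp]
    by_cases c2 : x = p'
    · rw [c2, zq', zp']
    by_cases c3 : x = p
    · rw [c3, hnp, zq, zp]
    by_cases c4 : x = M.nxt p'
    · rw [c4, M.nxt_nxt, zq', zp']
    · have e1 := hW1 x
      rw [sw_other M c1 c2 c3 c4] at e1
      have e2 := hW2 x
      rw [sw_other M c1 c4 c3 (by rw [M.nxt_nxt]; exact c2)] at e2
      rw [e1, e2, if_neg c1, if_neg]
      intro h
      apply c3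
      rw [hp, ← h, M.nxt_nxt]
  rw [Finset.sum_add_distrib, s1, zero_add, Finset.sum_ite_eq' Finset.univ q, if_pos (Finset.mem_univ _)] at s2
  exact one_ne_zero s2

/-- the number of faces decreases at most by one under a switch -/
theorem faces_switch (M M' : GMap G) {q p' : Flag G} (h1 : p' ≠ q) (h2 : p' ≠ M.nxt q)
    (hM' : M'.nxt = sw M q p') : Nat.card M.Face ≤ Nat.card M'.Face + 1 := by
  let θ : (M.Face → F2) →ₗ[F2] F2 :=
    { toFun := fun B => B (M.face q) + B (M.face p')
      map_add' := by intro x y; simp only [Pi.add_apply]; ring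
      map_smul' := by intro c x; simp only [Pi.smul_apply, smul_eq_mul, RingHom.id_apply]; ring }
  have h3 := LinearMap.finrank_range_add_finrank_ker θ
  rw [Module.finrank_fintype_fun_eq_card] at h3
  have h4 : Module.finrank F2 (LinearMap.range θ) ≤ 1 := by
    have := (LinearMap.range θ).finrank_le
    rwa [Module.finrank_self] at this
  have hinv : ∀ B ∈ LinearMap.ker θ, ∀ x y : Flag G, (y = M'.nxt x ∨ y = across x) → B (M.face x) = B (M.face y) := by
    intro B hB x y hxy
    have hB' : B (M.face q) = B (M.face p') := by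
      have h5 : B (M.face q) + B (M.face p') = 0 := hB
      calc B (M.face q) = B (M.face q) + (B (M.face p') + B (M.face p')) := by rw [f2_add_self, add_zero]
        _ = (B (M.face q) + B (M.face p')) + B (M.face p') := by ring
        _ = B (M.face p') := by rw [h5, zero_add]
    rcases hxy with hxy | hxy
    · rw [hxy, hM']
      by_cases c1 : x = q
      · rw [c1, sw_q M h1 h2, face_nxt]; exact hB'
      by_cases c2 : x = p'
      · rw [c2, sw_p' M h1 h2, face_nxt]; exact hB'.symm
      by_cases c3 : x = M.nxt q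
      · rw [c3, sw_nxt_q M h1 h2, face_nxt]; exact hB'
      by_cases c4 : x = M.nxt p'
      · rw [c4, sw_nxt_p' M h1 h2, face_nxt]; exact hB'.symm
      · rw [sw_other M c1 c2 c3 c4, face_nxt]
    · rw [hxy, face_across]
  let Φ : LinearMap.ker θ →ₗ[F2] (M'.Face → F2) :=
    { toFun := fun B => Quot.lift (fun x => B.1 (M.face x)) (fun x y h => hinv B.1 B.2 x y h)
      map_add' := by
        intro B C
        funext f
        induction f using Quot.ind with
        | _ x => rfl
      map_smul' := by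
        intro c B
        funext f
        induction f using Quot.ind with
        | _ x => rfl }
  have hΦ : Function.Injective Φ := by
    intro B C hBC
    apply Subtype.ext
    funext f
    obtain ⟨x, hx⟩ := face_surj M f
    rw [← hx]
    exact congrFun hBC (M'.face x)
  have h5 := LinearMap.finrank_le_finrank_of_injective hΦ
  rw [Module.finrank_fintype_fun_eq_card] at h5
  rw [Nat.card_eq_fintype_card, Nat.card_eq_fintype_card]
  omega

/-- a bad corner of the other colour at the same vertex -/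
theorem exists_other_bad (M : GMap G) {κ : Flag G → F2} (hκ : IsBand κ) {p0 : Flag G}
    (hp0 : κ (M.nxt p0) = κ p0) : ∃ p', κ (M.nxt p') = κ p' ∧ κ p' ≠ κ p0 ∧ p'.1.fst = p0.1.fst := by
  by_contra hcon
  push Not at hcon
  have h1 : ∑ p : Flag G, (if p.1.fst = p0.1.fst then sg κ p else 0) = 0 := by
    have := wt_zero (κ := κ) (X := fun p => if p.1.fst = p0.1.fst then 1 else 0) side side_side
      (fun p => (hκ p).2) (by intro p; rfl)
    unfold wt at this
    refine Eq.trans ?_ this
    apply Finset.sum_congr rfl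
    intro p _
    by_cases h : p.1.fst = p0.1.fst
    · rw [if_pos h]; simp [h]
    · rw [if_neg h]; simp [h]
  have h2 : ∑ p : Flag G, (if p.1.fst = p0.1.fst ∧ κ (M.nxt p) ≠ κ p then sg κ p else 0) = 0 := by
    apply Finset.sum_involution (fun p _ => M.nxt p)
    · intro p _
      rw [M.nxt_fst, M.nxt_nxt]
      by_cases h : p.1.fst = p0.1.fst ∧ κ (M.nxt p) ≠ κ p
      · rw [if_pos h, if_pos ⟨h.1, h.2.symm⟩]
        exact sg_ne h.2.symm
      · rw [if_neg h, if_neg (fun h' => h ⟨h'.1, h'.2.symm⟩), add_zero]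
    · intro p _ _
      exact M.nxt_ne p
    · intro p _; exact Finset.mem_univ _
    · intro p _; exact M.nxt_nxt p
  have h3 : ∑ p : Flag G, (if p.1.fst = p0.1.fst ∧ κ (M.nxt p) = κ p then sg κ p0 else 0) = 0 := by
    have h4 : ∀ p : Flag G, (if p.1.fst = p0.1.fst then sg κ p else 0) =
        (if p.1.fst = p0.1.fst ∧ κ (M.nxt p) ≠ κ p then sg κ p else 0) +
        (if p.1.fst = p0.1.fst ∧ κ (M.nxt p) = κ p then sg κ p0 else 0) := by
      intro p
      by_cases h : p.1.fst = p0.1.fst
      · by_cases h' : κ (M.nxt p) = κ p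
        · rw [if_pos h, if_neg (fun k => k.2 h'), if_pos ⟨h, h'⟩, zero_add]
          have h5 : κ p = κ p0 := by
            by_contra h6
            exact hcon p h' h6 h
          exact sg_eq h5
        · rw [if_pos h, if_pos ⟨h, h'⟩, if_neg (fun k => h' k.2), add_zero]
      · rw [if_neg h, if_neg (fun k => h k.1), if_neg (fun k => h k.1), add_zero]
    rw [Finset.sum_congr rfl (fun p _ => h4 p), Finset.sum_add_distrib, h2, zero_add] at h1
    exact h1
  rw [← Finset.sum_filter, Finset.sum_const, nsmul_eq_mul] at h3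
  have h5 : 0 < (Finset.univ.filter fun p : Flag G => p.1.fst = p0.1.fst ∧ κ (M.nxt p) = κ p).card :=
    Finset.card_pos.2 ⟨p0, Finset.mem_filter.2 ⟨Finset.mem_univ _, rfl, hp0⟩⟩
  have h6 : sg κ p0 ≠ 0 := by
    unfold sg
    by_cases h : κ p0 = 1
    · rw [if_pos h]; decide
    · rw [if_neg h]; decide
  rcases mul_eq_zero.1 h3 with h7 | h7
  · rw [Nat.cast_eq_zero] at h7
    omega
  · exact h6 h7

theorem switch_step (M : GMap G) {κ : Flag G → F2} (hκ : IsBand κ) {p0 : Flag G} (hp0 : κ (M.nxt p0) = κ p0) :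
    ∃ M' : GMap G, M'.eg ≤ M.eg + 1 ∧ Nat.card (M'.badFlags κ) + 4 ≤ Nat.card (M.badFlags κ) := by
  classical
  obtain ⟨p1, hb1, hκ1, hv1⟩ := exists_other_bad M hκ hp0
  -- choose the switch
  have hch : ∃ p', κ (M.nxt p') = κ p' ∧ κ p' ≠ κ p0 ∧ p'.1.fst = p0.1.fst ∧
      (∀ x y : Flag G, x.1.fst = y.1.fst → Relation.EqvGen (fun x y => y = sw M p0 p' x ∨ y = side x) x y) := by
    have e1 : p1 ≠ p0 := fun h => hκ1 (by rw [h])
    have e2 : p1 ≠ M.nxt p0 := fun h => hκ1 (by rw [h]; exact hp0)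
    rcases switch_conn M e1 e2 with h | h
    · exact ⟨p1, hb1, hκ1, hv1, h⟩
    · exact ⟨M.nxt p1, by rw [M.nxt_nxt]; exact hb1.symm, by rw [hb1]; exact hκ1, by rw [M.nxt_fst]; exact hv1, h⟩
  obtain ⟨p', hb, hκ', hv, hconn⟩ := hch
  have e1 : p' ≠ p0 := fun h => hκ' (by rw [h])
  have e2 : p' ≠ M.nxt p0 := fun h => hκ' (by rw [h]; exact hp0)
  let M' : GMap G :=
    { nxt := sw M p0 p'
      nxt_nxt := sw_sw M
      nxt_ne := sw_ne M
      nxt_fst := sw_fst M hv.symm
      conn := hconn }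
  refine ⟨M', ?_, ?_⟩
  · have := faces_switch M M' e1 e2 rfl
    unfold GMap.eg
    omega
  · let Q : Finset (Flag G) := {p0, M.nxt p0, p', M.nxt p'}
    have hQ : Q.card = 4 := by
      have d1 : p0 ≠ M.nxt p0 := (M.nxt_ne p0).symm
      have d2 : p' ≠ M.nxt p' := (M.nxt_ne p').symm
      have d3 : M.nxt p' ≠ p0 := fun h => hκ' (by rw [← hb, h])
      have d4 : M.nxt p' ≠ M.nxt p0 := fun h => e1 (nxt_inj M h)
      show ({p0, M.nxt p0, p', M.nxt p'} : Finset (Flag G)).card = 4
      rw [Finset.card_insert_of_notMem, Finset.card_insert_of_notMem, Finset.card_insert_of_notMem,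
        Finset.card_singleton]
      · rw [Finset.mem_singleton]; exact d2
      · rw [Finset.mem_insert, Finset.mem_singleton, not_or]; exact ⟨e2.symm, d4.symm⟩
      · rw [Finset.mem_insert, Finset.mem_insert, Finset.mem_singleton, not_or, not_or]
        exact ⟨d1, e1.symm, d3.symm⟩
    have hsub : M'.badFlags κ ∪ ↑Q ⊆ M.badFlags κ := by
      rintro x (hx | hx)
      · have hx' : κ (sw M p0 p' x) = κ x := hx
        show κ (M.nxt x) = κ x
        by_cases c1 : x = p0
        · rw [c1, sw_q M e1 e2, hb] at hx'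
          exact absurd hx' hκ'
        by_cases c2 : x = p'
        · rw [c2]; exact hb
        by_cases c3 : x = M.nxt p0
        · rw [c3, sw_nxt_q M e1 e2, hp0] at hx'
          exact absurd hx' hκ'
        by_cases c4 : x = M.nxt p'
        · rw [c4, M.nxt_nxt]; exact hb.symm
        · rw [sw_other M c1 c2 c3 c4] at hx'
          exact hx'
      · have hx' : x = p0 ∨ x = M.nxt p0 ∨ x = p' ∨ x = M.nxt p' := by
          have : x ∈ ({p0, M.nxt p0, p', M.nxt p'} : Finset (Flag G)) := hx
          simpa using this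
        show κ (M.nxt x) = κ x
        rcases hx' with h | h | h | h
        · rw [h]; exact hp0
        · rw [h, M.nxt_nxt]; exact hp0.symm
        · rw [h]; exact hb
        · rw [h, M.nxt_nxt]; exact hb.symm
    have hdis : Disjoint (M'.badFlags κ) (↑Q : Set (Flag G)) := by
      rw [Set.disjoint_left]
      intro x hx hxQ
      have hx0 : κ (sw M p0 p' x) = κ x := hx
      have hx' : x = p0 ∨ x = M.nxt p0 ∨ x = p' ∨ x = M.nxt p' := by
        have : x ∈ ({p0, M.nxt p0, p', M.nxt p'} : Finset (Flag G)) := hxQ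
        simpa using this
      rcases hx' with h | h | h | h
      · rw [h, sw_q M e1 e2, hb] at hx0
        exact hκ' hx0
      · rw [h, sw_nxt_q M e1 e2, hp0] at hx0
        exact hκ' hx0
      · rw [h, sw_p' M e1 e2, hp0] at hx0
        exact hκ' hx0.symm
      · rw [h, sw_nxt_p' M e1 e2, hb] at hx0
        exact hκ' hx0.symm
    have h1 := Set.ncard_le_ncard hsub (Set.toFinite _)
    rw [Set.ncard_union_eq hdis (Set.toFinite _) (Set.toFinite _), Set.ncard_coe_finset, hQ] at h1
    exact h1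

theorem exists_orientable {κ : Flag G → F2} (hκ : IsBand κ) : ∀ n : ℕ, ∀ M : GMap G,
    Nat.card (M.badFlags κ) = n → ∃ T : GMap G, T.Orientable ∧ 4 * T.eg ≤ 4 * M.eg + n := by
  intro n
  induction n using Nat.strong_induction_on with
  | _ n ih =>
    intro M hM
    by_cases h : ∃ p0, κ (M.nxt p0) = κ p0
    · obtain ⟨p0, hp0⟩ := h
      obtain ⟨M', h1, h2⟩ := switch_step M hκ hp0
      obtain ⟨T, hT1, hT2⟩ := ih (Nat.card (M'.badFlags κ)) (by omega) M' rfl
      refine ⟨T, hT1, ?_⟩
      omega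
    · push Not at h
      exact ⟨M, ⟨κ, hκ, h⟩, by omega⟩

theorem exists_band : ∃ κ : Flag G → F2, IsBand κ := by
  refine ⟨fun p => if p.2 then 1 else 0, ?_⟩
  rintro ⟨x, s⟩
  cases s <;> simp [across, side]

theorem upper (S : GMap G) : ∃ T : GMap G, T.Orientable ∧ 2 * T.eg ≤ 2 * S.eg + S.defect := by
  obtain ⟨κ0, hκ0⟩ := exists_band (G := G)
  have hne : {n | ∃ κ, IsBand κ ∧ S.badCorners κ = n}.Nonempty := ⟨_, κ0, hκ0, rfl⟩
  obtain ⟨κ, hκ, hκn⟩ := Nat.sInf_mem hne
  have hdef : S.badCorners κ = S.defect := hκn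
  obtain ⟨T, hT1, hT2⟩ := exists_orientable hκ (Nat.card (S.badFlags κ)) S rfl
  refine ⟨T, hT1, ?_⟩
  rw [card_badFlags] at hT2
  rw [badCorners_eq] at hdef
  omega

end Pool.Agent.Helper35.OG
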