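import Pool.Agent.Helper35.OG.Step

/-!
# Removing loops and parallel edges
-/

set_option autoImplicit false

open Finset

namespace Pool.Agent.Helper35.OG

variable {V E : Type} [Fintype V] [DecidableEq V] [Fintype E] [DecidableEq E]
variable (a b : E → V) {H : Type} [AddCommGroup H] [Module F2 H] (c : (E → F2) →ₗ[F2] H)

/-- Two edges with the same ends. -/
def par (e e' : E) : Prop := (a e = a e' ∧ b e = b e') ∨ (a e = b e' ∧ b e = a e')

theorem bd_single (e : E) (v : V) :
    bd a b (Pi.single e 1) v = (if a e = v then 1 else 0) + (if b e = v then 1 else 0) := by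
  show ∑ e', (Pi.single e 1 : E → F2) e' * _ = _
  rw [Finset.sum_eq_single e]
  · rw [Pi.single_eq_same, one_mul]
  · intro e' _ hne
    rw [Pi.single_eq_of_ne hne, zero_mul]
  · intro h; exact absurd (Finset.mem_univ _) h

theorem adjL_single (e : E) (u v : V) :
    adjL a b u v (Pi.single e 1) =
      (if a e = u ∧ b e = v then 1 else 0) + (if a e = v ∧ b e = u then 1 else 0) := by
  show ∑ e', (Pi.single e 1 : E → F2) e' * _ = _
  rw [Finset.sum_eq_single e]
  · rw [Pi.single_eq_same, one_mul]
  · intro e' _ hne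
    rw [Pi.single_eq_of_ne hne, zero_mul]
  · intro h; exact absurd (Finset.mem_univ _) h

/-- The loop `e`, or the pair of parallel edges `e`, `y`. -/
def piece (y : E → E) (e : E) : E → F2 := Pi.single e 1 + (if a e = b e then 0 else Pi.single (y e) 1)

theorem bd_piece (y : E → E) (e : E) (h : a e = b e ∨ par a b e (y e)) : bd a b (piece a b y e) = 0 := by
  funext v
  unfold piece
  rw [map_add, Pi.add_apply, bd_single]
  by_cases h1 : a e = b e
  · rw [if_pos h1, map_zero, h1, Pi.zero_apply, f2_add_self, add_zero]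
  · rw [if_neg h1, bd_single, Pi.zero_apply]
    rcases h.resolve_left h1 with ⟨h2, h3⟩ | ⟨h2, h3⟩
    · rw [← h2, ← h3, f2_add_self]
    · rw [← h2, ← h3, add_comm (if b e = v then (1 : F2) else 0), f2_add_self]

theorem adjL_piece (y : E → E) (e : E) (h : a e = b e ∨ par a b e (y e)) (u v : V) :
    adjL a b u v (piece a b y e) = 0 := by
  unfold piece
  rw [map_add, adjL_single]
  by_cases h1 : a e = b e
  · rw [if_pos h1, map_zero, h1, add_zero]
    have : (b e = u ∧ b e = v) ↔ (b e = v ∧ b e = u) := and_comm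
    simp only [this, f2_add_self]
  · rw [if_neg h1, adjL_single]
    rcases h.resolve_left h1 with ⟨h2, h3⟩ | ⟨h2, h3⟩
    · rw [← h2, ← h3, f2_add_self]
    · rw [← h2, ← h3]
      have k1 : (b e = u ∧ a e = v) ↔ (a e = v ∧ b e = u) := and_comm
      have k2 : (b e = v ∧ a e = u) ↔ (a e = u ∧ b e = v) := and_comm
      simp only [k1, k2]
      rw [add_comm (if a e = v ∧ b e = u then (1 : F2) else 0), f2_add_self]

/-- After removing few loops and parallel edges the multigraph is simple away from a small set of vertices. -/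
theorem step1 {k : ℕ} (hk : Module.finrank F2 ((LinearMap.ker (bd a b)).map c) ≤ k) (lam : Finset E)
    (hlam : bd a b (ind lam) = 0) :
    ∃ lam1 ⊆ lam, ∃ R1 : Finset V, bd a b (ind lam1) = 0 ∧ c (ind lam1) = c (ind lam) ∧
      (∀ u v, adj a b lam1 u v = adj a b lam u v) ∧ R1.card ≤ k ∧
      (∀ e ∈ lam1, a e = b e → a e ∈ R1) ∧
      (∀ e ∈ lam1, ∀ e' ∈ lam1, e ≠ e' → par a b e e' → a e ∈ R1 ∨ b e ∈ R1) := by
  classical
  -- the smallest set
  obtain ⟨lam1, ⟨h1, h2, h3, h4⟩, hmin⟩ := Set.exists_min_image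
    {ν : Finset E | ν ⊆ lam ∧ bd a b (ind ν) = 0 ∧ c (ind ν) = c (ind lam) ∧
      ∀ u v, adj a b ν u v = adj a b lam u v} Finset.card (Set.toFinite _)
    ⟨lam, Finset.Subset.refl _, hlam, rfl, fun _ _ => rfl⟩
  -- the largest simple subset
  obtain ⟨Y, ⟨hY1, hY2, hY3⟩, hmax⟩ := Set.exists_max_image
    {Y : Finset E | Y ⊆ lam1 ∧ (∀ e ∈ Y, a e ≠ b e) ∧ ∀ e ∈ Y, ∀ e' ∈ Y, e ≠ e' → ¬ par a b e e'}
    Finset.card (Set.toFinite _) ⟨∅, by simp⟩
  have hpar_symm : ∀ e e', par a b e e' → par a b e' e := by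
    rintro e e' (⟨p, q⟩ | ⟨p, q⟩)
    · exact Or.inl ⟨p.symm, q.symm⟩
    · exact Or.inr ⟨q.symm, p.symm⟩
  have hex : ∀ e : E, ∃ y : E, (e ∈ lam1 \ Y → a e ≠ b e → y ∈ Y ∧ par a b e y) := by
    intro e
    by_cases hin : e ∈ lam1 \ Y ∧ a e ≠ b e
    · by_contra hcon
      push Not at hcon
      rw [Finset.mem_sdiff] at hin
      have hins : insert e Y ∈ {Y : Finset E | Y ⊆ lam1 ∧ (∀ e ∈ Y, a e ≠ b e) ∧
          ∀ e ∈ Y, ∀ e' ∈ Y, e ≠ e' → ¬ par a b e e'} := by
        refine ⟨Finset.insert_subset hin.1.1 hY1, ?_, ?_⟩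
        · intro e' he'
          rcases Finset.mem_insert.1 he' with h | h
          · rw [h]; exact hin.2
          · exact hY2 e' h
        · intro e1 he1 e2 he2 hne
          rcases Finset.mem_insert.1 he1 with h | h
          · rcases Finset.mem_insert.1 he2 with h' | h'
            · exact absurd (h.trans h'.symm) hne
            · rw [h]; exact (hcon e2).2.2 h'
          · rcases Finset.mem_insert.1 he2 with h' | h'
            · rw [h']; exact fun hp => (hcon e1).2.2 h (hpar_symm _ _ hp)
            · exact hY3 e1 h e2 h' hne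
      have := hmax _ hins
      rw [Finset.card_insert_of_notMem hin.1.2] at this
      omega
    · refine ⟨e, fun p q => absurd ⟨p, q⟩ hin⟩
  choose y hy using hex
  set X := lam1 \ Y with hX
  have hpc : ∀ e ∈ X, a e = b e ∨ par a b e (y e) := by
    intro e he
    by_cases h : a e = b e
    · exact Or.inl h
    · exact Or.inr (hy e he h).2
  let Ψ : (X → F2) →ₗ[F2] (E → F2) := Fintype.linearCombination F2 (fun e : X => piece a b y e.1)
  have hΨ : ∀ x, Ψ x = ∑ e : X, x e • piece a b y e.1 := fun x => Fintype.linearCombination_apply _ _ _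
  have hval : ∀ (e e' : E), e ∈ X → e' ∈ X → piece a b y e e' = if e = e' then 1 else 0 := by
    intro e e' he he'
    unfold piece
    have hz : (if a e = b e then (0 : E → F2) else Pi.single (y e) 1) e' = 0 := by
      by_cases h : a e = b e
      · rw [if_pos h]; rfl
      · rw [if_neg h, Pi.single_eq_of_ne]
        intro h'
        rw [h'] at he'
        exact (Finset.mem_sdiff.1 he').2 (hy e he h).1
    rw [Pi.add_apply, hz, add_zero]
    by_cases h : e = e'
    · rw [if_pos h, h, Pi.single_eq_same]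
    · rw [if_neg h, Pi.single_eq_of_ne (Ne.symm h)]
  have hΨX : ∀ x (e : X), Ψ x e.1 = x e := by
    intro x e
    rw [hΨ, Finset.sum_apply, Finset.sum_eq_single e]
    · rw [Pi.smul_apply, hval _ _ e.2 e.2, if_pos rfl, smul_eq_mul, mul_one]
    · intro e' _ hne
      rw [Pi.smul_apply, hval _ _ e'.2 e.2, if_neg (fun h => hne (Subtype.ext h)), smul_zero]
    · intro h; exact absurd (Finset.mem_univ _) h
  have hΨoff : ∀ x e, e ∉ lam1 → Ψ x e = 0 := by
    intro x e he
    rw [hΨ, Finset.sum_apply]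
    apply Finset.sum_eq_zero
    intro e' _
    rw [Pi.smul_apply]
    have : piece a b y e'.1 e = 0 := by
      unfold piece
      have hne : e ≠ e'.1 := by
        intro h
        rw [h] at he
        exact he (Finset.mem_sdiff.1 e'.2).1
      rw [Pi.add_apply, Pi.single_eq_of_ne hne, zero_add]
      by_cases h : a e'.1 = b e'.1
      · rw [if_pos h]; rfl
      · rw [if_neg h, Pi.single_eq_of_ne]
        intro h'
        rw [h'] at he
        exact he (hY1 (hy _ e'.2 h).1)
    rw [this, smul_zero]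
  have hbd : ∀ x, bd a b (Ψ x) = 0 := by
    intro x
    rw [hΨ, map_sum]
    apply Finset.sum_eq_zero
    intro e _
    rw [map_smul, bd_piece a b y e.1 (hpc _ e.2), smul_zero]
  have hadj : ∀ x u v, adjL a b u v (Ψ x) = 0 := by
    intro x u v
    rw [hΨ, map_sum]
    apply Finset.sum_eq_zero
    intro e _
    rw [map_smul, adjL_piece a b y e.1 (hpc _ e.2), smul_zero]
  have hXk : X.card ≤ k := by
    by_contra hcon
    push Not at hcon
    have hfr : Module.finrank F2 (X → F2) = X.card := by
      rw [Module.finrank_fintype_fun_eq_card, Fintype.card_coe]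
    obtain ⟨x, hx0, hx⟩ := dim_kernel a b c hk Ψ hbd (by rw [hfr]; exact hcon)
    set ν := supp (Ψ x) with hν
    have hind : ind ν = Ψ x := ind_supp _
    have hνsub : ν ⊆ lam1 := by
      intro e he
      by_contra h
      exact (mem_supp.1 he) (hΨoff x e h)
    have hνne : ν.Nonempty := by
      obtain ⟨e, he⟩ : ∃ e, x e ≠ 0 := by
        by_contra h
        push Not at h
        exact hx0 (funext h)
      exact ⟨e.1, mem_supp.2 (by rw [hΨX]; exact he)⟩
    have hsd : ind (lam1 \ ν) = ind lam1 + ind ν := ind_sdiff hνsub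
    have hmem : lam1 \ ν ∈ {ν : Finset E | ν ⊆ lam ∧ bd a b (ind ν) = 0 ∧ c (ind ν) = c (ind lam) ∧
        ∀ u v, adj a b ν u v = adj a b lam u v} := by
      refine ⟨Finset.sdiff_subset.trans h1, ?_, ?_, ?_⟩
      · rw [hsd, map_add, h2, hind, hbd, add_zero]
      · rw [hsd, map_add, h3, hind, hx, add_zero]
      · intro u v
        rw [← h4 u v]
        show adjL a b u v (ind (lam1 \ ν)) = adjL a b u v (ind lam1)
        rw [hsd, map_add, hind, hadj, add_zero]
    have := hmin _ hmem
    have hlt : (lam1 \ ν).card < lam1.card := Finset.card_lt_card (Finset.sdiff_ssubset hνsub hνne)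
    omega
  refine ⟨lam1, h1, X.image a, h2, h3, h4, Finset.card_image_le.trans hXk, ?_, ?_⟩
  · intro e he hloop
    apply Finset.mem_image_of_mem
    rw [hX, Finset.mem_sdiff]
    exact ⟨he, fun h => hY2 e h hloop⟩
  · intro e he e' he' hne hp
    by_cases hin : e ∈ Y
    · have hin' : e' ∉ Y := fun h => hY3 e hin e' h hne hp
      have hX' : a e' ∈ X.image a := Finset.mem_image_of_mem _ (Finset.mem_sdiff.2 ⟨he', hin'⟩)
      rcases hp with ⟨h, h'⟩ | ⟨h, h'⟩
      · rw [h]; exact Or.inl hX'
      · rw [h']; exact Or.inr hX'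
    · exact Or.inl (Finset.mem_image_of_mem _ (Finset.mem_sdiff.2 ⟨he, hin⟩))

end Pool.Agent.Helper35.OG
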