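import Pool.Agent.Helper35.OG.Form

/-!
# The form on corners when the second map is orientable
-/

set_option autoImplicit false

open Finset

namespace Pool.Agent.Helper35.OG

variable {V : Type} [Fintype V] [DecidableEq V] {G : SimpleGraph V} [DecidableRel G.Adj]

/-- The sign of a flag. -/
def sg (κ : Flag G → F2) (p : Flag G) : ℤ := if κ p = 1 then 1 else -1

theorem sg_cast (κ : Flag G → F2) (p : Flag G) : ((sg κ p : ℤ) : F2) = 1 := by
  unfold sg
  by_cases h : κ p = 1
  · rw [if_pos h]; rfl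
  · rw [if_neg h]; rfl

theorem sg_eq {κ : Flag G → F2} {p q : Flag G} (h : κ p = κ q) : sg κ p = sg κ q := by
  unfold sg; rw [h]

theorem sg_ne {κ : Flag G → F2} {p q : Flag G} (h : κ p ≠ κ q) : sg κ p + sg κ q = 0 := by
  unfold sg
  rcases f2_cases (κ p) with h1 | h1 <;> rcases f2_cases (κ q) with h2 | h2
  · exact absurd (h1.trans h2.symm) h
  · rw [h1, h2]; decide
  · rw [h1, h2]; decide
  · exact absurd (h1.trans h2.symm) h

/-- The signed size of a set of flags. -/
def wt (κ : Flag G → F2) (X : Flag G → F2) : ℤ := ∑ p, if X p = 1 then sg κ p else 0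

theorem wt_zero {κ : Flag G → F2} {X : Flag G → F2} (σ : Flag G → Flag G) (h1 : ∀ p, σ (σ p) = p)
    (h2 : ∀ p, κ (σ p) ≠ κ p) (h3 : ∀ p, X (σ p) = X p) : wt κ X = 0 := by
  unfold wt
  apply Finset.sum_involution (fun p _ => σ p)
  · intro p _
    rw [h3]
    by_cases h : X p = 1
    · rw [if_pos h, if_pos h]
      exact sg_ne (h2 p).symm
    · rw [if_neg h, if_neg h, add_zero]
  · intro p _ _ h
    exact h2 p (by rw [h])
  · intro p _
    exact Finset.mem_univ _
  · intro p _
    exact h1 p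

theorem wt_add (κ : Flag G → F2) (X Y : Flag G → F2) :
    wt κ (fun p => X p + Y p) = wt κ X + wt κ Y - 2 * wt κ (fun p => X p * Y p) := by
  unfold wt
  rw [Finset.mul_sum, ← Finset.sum_add_distrib, ← Finset.sum_sub_distrib]
  apply Finset.sum_congr rfl
  intro p _
  show (if X p + Y p = 1 then sg κ p else 0) =
    (if X p = 1 then sg κ p else 0) + (if Y p = 1 then sg κ p else 0) - 2 * (if X p * Y p = 1 then sg κ p else 0)
  have e : (1 : F2) + 1 = 0 := rfl
  rcases f2_cases (X p) with h1 | h1 <;> rcases f2_cases (Y p) with h2 | h2 <;> rw [h1, h2]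
  · simp
  · simp
  · simp
  · rw [e, mul_one, if_pos rfl, if_neg zero_ne_one]
    ring

theorem wt_cast (κ : Flag G → F2) (X : Flag G → F2) : ((wt κ X : ℤ) : F2) = ∑ p, X p := by
  unfold wt
  push_cast
  apply Finset.sum_congr rfl
  intro p _
  rcases f2_cases (X p) with h | h
  · rw [h, if_neg zero_ne_one]
  · rw [h, if_pos rfl, sg_cast]

variable (S T : GMap G)

/-- the signed size of a chain of corners -/
theorem wt_eq_two_mul {κ : Flag G → F2} (hκ : IsBand κ) (hT : ∀ p, κ (T.nxt p) ≠ κ p) {P : Flag G → F2}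
    (hP : NInv S P) : ∃ z : ℤ, wt κ P = 2 * z ∧ ((z : ℤ) : F2) = hf T P P := by
  have hL := lift_spec S T hP
  set L := lift T P with hLdef
  refine ⟨wt κ (fun p => L p * P p), ?_, ?_⟩
  · have h1 := wt_add κ L P
    rw [wt_zero side side_side (fun p => (hκ p).2) (fun p => hL.2 p),
      wt_zero T.nxt T.nxt_nxt hT hL.1] at h1
    linarith
  · rw [wt_cast]
    rfl

/-- The corner indicator. -/
noncomputable def cor (r : S.Rep) : Flag G → F2 := fun p => if S.rep p = r then 1 else 0

theorem cor_inv (r : S.Rep) : NInv S (cor S r) := by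
  intro p
  unfold cor
  rw [rep_nxt]

theorem sum_cor (f : Flag G → F2) (r : S.Rep) : ∑ p, f p * cor S r p = f r.1 + f (S.nxt r.1) := by
  rw [sum_rep S]
  unfold cor
  rw [Finset.sum_eq_single r]
  · rw [rep_nxt, rep_rep, if_pos rfl, mul_one, mul_one]
  · intro r' _ hne
    rw [rep_nxt, rep_rep, if_neg hne, mul_zero, mul_zero, add_zero]
  · intro h; exact absurd (Finset.mem_univ _) h

theorem wt_cor (κ : Flag G → F2) (r : S.Rep) : wt κ (cor S r) = sg κ r.1 + sg κ (S.nxt r.1) := by
  unfold wt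
  rw [sum_rep S]
  unfold cor
  rw [Finset.sum_eq_single r]
  · rw [rep_nxt, rep_rep, if_pos rfl, if_pos rfl, if_pos rfl]
  · intro r' _ hne
    rw [rep_nxt, rep_rep, if_neg hne, if_neg zero_ne_one, if_neg zero_ne_one, add_zero]
  · intro h; exact absurd (Finset.mem_univ _) h

/-- The indicator of the bad corners. -/
def bad (κ : Flag G → F2) (r : S.Rep) : F2 := 1 + κ r.1 + κ (S.nxt r.1)

theorem bad_eq_one {κ : Flag G → F2} {r : S.Rep} : bad S κ r = 1 ↔ κ (S.nxt r.1) = κ r.1 := by
  unfold bad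
  rcases f2_cases (κ r.1) with h1 | h1 <;> rcases f2_cases (κ (S.nxt r.1)) with h2 | h2 <;> rw [h1, h2] <;> decide

/-- the signed size of a corner -/
theorem wt_corner (κ : Flag G → F2) (r : S.Rep) :
    ∃ z : ℤ, sg κ r.1 + sg κ (S.nxt r.1) = 2 * z ∧ ((z : ℤ) : F2) = bad S κ r := by
  by_cases h : κ (S.nxt r.1) = κ r.1
  · refine ⟨sg κ r.1, ?_, ?_⟩
    · rw [sg_eq h]; ring
    · rw [sg_cast, (bad_eq_one S).2 h]
  · refine ⟨0, ?_, ?_⟩
    · rw [sg_ne (Ne.symm h), mul_zero]
    · rw [Int.cast_zero]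
      rcases f2_cases (bad S κ r) with h1 | h1
      · exact h1.symm
      · exact absurd ((bad_eq_one S).1 h1) h

theorem hf_self {κ : Flag G → F2} (hκ : IsBand κ) (hT : ∀ p, κ (T.nxt p) ≠ κ p) (r : S.Rep) :
    hf T (cor S r) (cor S r) = bad S κ r := by
  obtain ⟨z, hz1, hz2⟩ := wt_eq_two_mul S T hκ hT (cor_inv S r)
  obtain ⟨z', hz3, hz4⟩ := wt_corner S κ r
  rw [wt_cor] at hz1
  rw [← hz2, ← hz4]
  congr 1
  omega

/-- every face has an even number of bad corners -/
theorem bad_face {κ : Flag G → F2} (hκ : IsBand κ) (f : S.Face) :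
    ∑ r : S.Rep, bad S κ r * (if S.face r.1 = f then 1 else 0) = 0 := by
  have h1 : wt κ (fun p => if S.face p = f then 1 else 0) = 0 := by
    apply wt_zero across across_across (fun p => (hκ p).1)
    intro p
    rw [face_across]
  unfold wt at h1
  rw [sum_rep S] at h1
  choose z hz1 hz2 using wt_corner S κ
  have h2 : ∑ r : S.Rep, z r * (if S.face r.1 = f then 1 else 0) = 0 := by
    have h3 : 2 * ∑ r : S.Rep, z r * (if S.face r.1 = f then 1 else 0) = 0 := by
      refine Eq.trans ?_ h1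
      rw [Finset.mul_sum]
      apply Finset.sum_congr rfl
      intro r _
      show 2 * (z r * (if S.face r.1 = f then 1 else 0)) =
        (if (if S.face r.1 = f then (1 : F2) else 0) = 1 then sg κ r.1 else 0) +
        (if (if S.face (S.nxt r.1) = f then (1 : F2) else 0) = 1 then sg κ (S.nxt r.1) else 0)
      rw [face_nxt]
      by_cases h : S.face r.1 = f
      · rw [if_pos h, if_pos h, if_pos rfl, if_pos rfl, hz1, mul_one]
      · rw [if_neg h, if_neg h, if_neg zero_ne_one, if_neg zero_ne_one]; ring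
    linarith
  have h4 := congrArg (Int.cast : ℤ → F2) h2
  push_cast at h4
  refine Eq.trans ?_ h4
  apply Finset.sum_congr rfl
  intro r _
  rw [hz2]

end Pool.Agent.Helper35.OG
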