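import Pool.Agent.Helper35.OG.Tri

/-!
# The defect is at most twice the Euler genus of an orientable map plus a constant
-/

set_option autoImplicit false

open Finset

namespace Pool.Agent.Helper35.OG

variable {V : Type} [Fintype V] [DecidableEq V] {G : SimpleGraph V} [DecidableRel G.Adj]

theorem card_badFlags (M : GMap G) (κ : Flag G → F2) : Nat.card (M.badFlags κ) =
    2 * (Finset.univ.filter fun r : M.Rep => κ (M.nxt r.1) = κ r.1).card := by
  classical
  have h1 : Nat.card (M.badFlags κ) = ∑ p : Flag G, if κ (M.nxt p) = κ p then 1 else 0 := by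
    rw [← Finset.card_filter]
    have h2 : M.badFlags κ = ↑(Finset.univ.filter fun p : Flag G => κ (M.nxt p) = κ p) := by
      ext p
      simp [GMap.badFlags]
    rw [h2, Nat.card_coe_set_eq, Set.ncard_coe_finset]
  rw [h1, sum_rep M, Finset.card_filter, Finset.mul_sum]
  apply Finset.sum_congr rfl
  intro r _
  rw [M.nxt_nxt]
  by_cases h : κ (M.nxt r.1) = κ r.1
  · rw [if_pos h, if_pos h.symm]
    rfl
  · rw [if_neg h, if_neg (fun h' => h h'.symm)]
    rfl

theorem badCorners_eq (M : GMap G) (κ : Flag G → F2) : M.badCorners κ =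
    (Finset.univ.filter fun r : M.Rep => κ (M.nxt r.1) = κ r.1).card := by
  unfold GMap.badCorners
  rw [card_badFlags]
  omega

theorem defect_le [Nontrivial V] (hG : G.Connected) (S T : GMap G) (hT : T.Orientable) :
    (S.defect : ℤ) ≤ 2 * T.eg + 24 * S.eg := by
  classical
  obtain ⟨κ, hκ, hκT⟩ := hT
  obtain ⟨mu, hmu1, hmu2, ℓ, hℓ1, hℓ2, hℓ3⟩ :=
    abs (fa S T) (fb S T) (cls S T) (le_refl _) Finset.univ (bd_univ S T hκ hκT)
  have hk := finrank_cls S T hG
  have htri := tri_bound S T hG ℓ
    (by intro p hp; rw [← adj_univ S T hκ hκT]; exact hℓ1 p hp)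
    (by
      refine hℓ2.imp ?_
      intro p q h
      rw [← adj_univ S T hκ hκT]
      exact h)
  -- the correction of the orientation
  have h1 : tt S T (ind mu) - tt S T (ind Finset.univ) ∈ LinearMap.range (dl S) := by
    rw [← Submodule.Quotient.eq]
    exact hmu2
  obtain ⟨ε, hε⟩ := h1
  let κ' : Flag G → F2 := fun p => κ p + pull ε p
  have hκ' : IsBand κ' := by
    intro p
    constructor
    · intro h
      have h2 : κ (across p) + pull ε (across p) = κ p + pull ε p := h
      rw [pull_across] at h2
      exact (hκ p).1 (add_right_cancel h2)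
    · intro h
      have h2 : κ (side p) + pull ε (side p) = κ p + pull ε p := h
      rw [pull_side] at h2
      exact (hκ p).2 (add_right_cancel h2)
  have hbad : ∀ r : S.Rep, bad S κ' r = tt S T (ind mu) r := by
    intro r
    have h2 : pull ε r.1 + pull ε (S.nxt r.1) = tt S T (ind mu) r - tt S T (ind Finset.univ) r := congrFun hε r
    rw [tt_univ S T hκ hκT] at h2
    show 1 + (κ r.1 + pull ε r.1) + (κ (S.nxt r.1) + pull ε (S.nxt r.1)) = tt S T (ind mu) r
    calc 1 + (κ r.1 + pull ε r.1) + (κ (S.nxt r.1) + pull ε (S.nxt r.1)) =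
        bad S κ r + (pull ε r.1 + pull ε (S.nxt r.1)) := by unfold bad; ring
      _ = tt S T (ind mu) r := by rw [h2]; ring
  have hcard : (Finset.univ.filter fun r : S.Rep => κ' (S.nxt r.1) = κ' r.1).card ≤ 2 * mu.card := by
    have h2 : (Finset.univ.filter fun r : S.Rep => κ' (S.nxt r.1) = κ' r.1) ⊆
        mu.image (a0 S T) ∪ mu.image (b0 S T) := by
      intro r hr
      rw [Finset.mem_filter] at hr
      have h3 := (bad_eq_one S).2 hr.2
      rw [hbad r] at h3
      by_contra hcon
      rw [Finset.mem_union, not_or] at hcon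
      have h4 : tt S T (ind mu) r = 0 := by
        show ∑ q, ind mu q * ((if a0 S T q = r then 1 else 0) + (if b0 S T q = r then 1 else 0)) = 0
        apply Finset.sum_eq_zero
        intro q _
        by_cases hq : q ∈ mu
        · have h5 : ¬ a0 S T q = r := fun h => hcon.1 (h ▸ Finset.mem_image_of_mem _ hq)
          have h6 : ¬ b0 S T q = r := fun h => hcon.2 (h ▸ Finset.mem_image_of_mem _ hq)
          rw [if_neg h5, if_neg h6, add_zero, mul_zero]
        · unfold ind
          rw [if_neg hq, zero_mul]
      rw [h4] at h3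
      exact zero_ne_one h3
    calc _ ≤ _ := Finset.card_le_card h2
      _ ≤ _ := Finset.card_union_le _ _
      _ ≤ mu.card + mu.card := Nat.add_le_add Finset.card_image_le Finset.card_image_le
      _ = 2 * mu.card := by ring
  have hdef : S.defect ≤ S.badCorners κ' := Nat.sInf_le ⟨κ', hκ', rfl⟩
  rw [badCorners_eq] at hdef
  omega

end Pool.Agent.Helper35.OG
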