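import Pool.Agent.Helper35.OG.Upper

/-!
# The Euler genus of an orientable map is even
-/

set_option autoImplicit false

open Finset

namespace Pool.Agent.Helper35.OG

open Equiv.Perm in
theorem card_orbits {X : Type} [Fintype X] [DecidableEq X] (σ : Equiv.Perm X) :
    Nat.card (Quotient (SameCycle.setoid σ)) =
      Multiset.card σ.cycleType + (Finset.univ.filter fun x => σ x = x).card := by
  classical
  let f0 : X → {c // c ∈ σ.cycleFactorsFinset} ⊕ {x // σ x = x} := fun x =>
    if h : σ x = x then Sum.inr ⟨x, h⟩
    else Sum.inl ⟨σ.cycleOf x, cycleOf_mem_cycleFactorsFinset_iff.2 (mem_support.2 h)⟩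
  have hf0 : ∀ x y, σ.SameCycle x y → f0 x = f0 y := by
    intro x y hxy
    show (if h : σ x = x then _ else _) = (if h : σ y = y then _ else _)
    by_cases h : σ x = x
    · have : x = y := hxy.eq_of_left h
      subst this
      rfl
    · have h' : ¬ σ y = y := fun h' => h (hxy.apply_eq_self_iff.2 h')
      rw [dif_neg h, dif_neg h']
      congr 1
      apply Subtype.ext
      exact hxy.cycleOf_eq
  let f : Quotient (SameCycle.setoid σ) → {c // c ∈ σ.cycleFactorsFinset} ⊕ {x // σ x = x} :=
    Quotient.lift f0 hf0
  have hf : Function.Bijective f := by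
    constructor
    · intro a b
      induction a using Quotient.ind with
      | _ x =>
        induction b using Quotient.ind with
        | _ y =>
          intro hxy
          have h1 : f0 x = f0 y := hxy
          apply Quotient.sound
          show σ.SameCycle x y
          change (if h : σ x = x then _ else _) = (if h : σ y = y then _ else _) at h1
          by_cases h : σ x = x
          · by_cases h' : σ y = y
            · rw [dif_pos h, dif_pos h', Sum.inr.injEq, Subtype.mk.injEq] at h1
              rw [h1]
            · rw [dif_pos h, dif_neg h'] at h1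
              cases h1
          · by_cases h' : σ y = y
            · rw [dif_neg h, dif_pos h'] at h1
              cases h1
            · rw [dif_neg h, dif_neg h', Sum.inl.injEq, Subtype.mk.injEq] at h1
              exact (sameCycle_iff_cycleOf_eq_of_mem_support (mem_support.2 h) (mem_support.2 h')).2 h1
    · rintro (⟨c, hc⟩ | ⟨x, hx⟩)
      · have hne : c.support.Nonempty := by
          have h1 := (mem_cycleFactorsFinset_iff.1 hc).1
          rw [Finset.nonempty_iff_ne_empty]
          intro h2
          exact h1.ne_one (support_eq_empty_iff.1 h2)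
        obtain ⟨a, ha⟩ := hne
        refine ⟨Quotient.mk _ a, ?_⟩
        show f0 a = _
        have h1 : c = σ.cycleOf a := cycle_is_cycleOf ha hc
        have h2 : ¬ σ a = a := mem_support.1 (mem_cycleFactorsFinset_support_le hc ha)
        show (if h : σ a = a then _ else _) = _
        rw [dif_neg h2]
        congr 1
        apply Subtype.ext
        exact h1.symm
      · refine ⟨Quotient.mk _ x, ?_⟩
        show f0 x = _
        show (if h : σ x = x then _ else _) = _
        rw [dif_pos hx]
  rw [Nat.card_congr (Equiv.ofBijective f hf), Nat.card_sum, Nat.card_eq_fintype_card, Nat.card_eq_fintype_card,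
    Fintype.card_coe, Fintype.card_subtype, cycleType_def, Multiset.card_map]
  rfl

open Equiv.Perm in
theorem sign_orbits {X : Type} [Fintype X] [DecidableEq X] (σ : Equiv.Perm X) :
    sign σ = (-1) ^ (Fintype.card X + Nat.card (Quotient (SameCycle.setoid σ))) := by
  rw [card_orbits, sign_of_cycleType, sum_cycleType]
  have h1 : Fintype.card X = σ.support.card + (Finset.univ.filter fun x => σ x = x).card := by
    rw [← Finset.card_univ, ← Finset.card_filter_add_card_filter_not (fun x => σ x ≠ x)]
    congr 1
    congr 1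
    ext x
    simp
  rw [h1]
  have h2 : σ.support.card + (Finset.univ.filter fun x => σ x = x).card +
      (Multiset.card σ.cycleType + (Finset.univ.filter fun x => σ x = x).card) =
      σ.support.card + Multiset.card σ.cycleType + 2 * (Finset.univ.filter fun x => σ x = x).card := by ring
  rw [h2, pow_add _ _ (2 * _), pow_mul, neg_one_sq, one_pow, mul_one]

variable {V : Type} [Fintype V] [DecidableEq V] {G : SimpleGraph V} [DecidableRel G.Adj]

theorem f2_ne {x y : F2} (h : x ≠ y) : x = 1 ↔ y ≠ 1 := by
  rcases f2_cases x with h1 | h1 <;> rcases f2_cases y with h2 | h2 <;> rw [h1, h2] at h ⊢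
  · exact absurd rfl h
  · simp
  · simp
  · exact absurd rfl h

/-- The flags of colour one. -/
abbrev Dp (κ : Flag G → F2) : Type := {p : Flag G // κ p = 1}

/-- The product of two colour-changing involutions. -/
def pm (κ : Flag G → F2) (σ τ : Flag G → Flag G) (hσ : ∀ p, σ (σ p) = p) (hτ : ∀ p, τ (τ p) = p)
    (kσ : ∀ p, κ (σ p) ≠ κ p) (kτ : ∀ p, κ (τ p) ≠ κ p) : Equiv.Perm (Dp κ) where
  toFun p := ⟨σ (τ p.1), (f2_ne (kσ _)).2 (fun h => (f2_ne (kτ p.1)).1 h p.2)⟩
  invFun p := ⟨τ (σ p.1), (f2_ne (kτ _)).2 (fun h => (f2_ne (kσ p.1)).1 h p.2)⟩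
  left_inv p := by
    apply Subtype.ext
    show τ (σ (σ (τ p.1))) = p.1
    rw [hσ, hτ]
  right_inv p := by
    apply Subtype.ext
    show σ (τ (τ (σ p.1))) = p.1
    rw [hτ, hσ]

open Equiv.Perm in
theorem orbits_pm (κ : Flag G → F2) (σ τ : Flag G → Flag G) (hσ : ∀ p, σ (σ p) = p) (hτ : ∀ p, τ (τ p) = p)
    (kσ : ∀ p, κ (σ p) ≠ κ p) (kτ : ∀ p, κ (τ p) ≠ κ p) {Y : Type} (g : Flag G → Y)
    (hg : Function.Surjective g) (gσ : ∀ p, g (σ p) = g p) (gτ : ∀ p, g (τ p) = g p)
    (hW : ∀ W : Flag G → Quotient (SameCycle.setoid (pm κ σ τ hσ hτ kσ kτ)), (∀ p, W (σ p) = W p) →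
      (∀ p, W (τ p) = W p) → ∀ p q, g p = g q → W p = W q) :
    Nat.card (Quotient (SameCycle.setoid (pm κ σ τ hσ hτ kσ kτ))) = Nat.card Y := by
  classical
  set π := pm κ σ τ hσ hτ kσ kτ with hπ
  have hs : ∀ p : Flag G, ¬ κ p = 1 → κ (σ p) = 1 := fun p h => (f2_ne (kσ p)).2 h
  let W : Flag G → Quotient (SameCycle.setoid π) := fun x =>
    if h : κ x = 1 then Quotient.mk _ ⟨x, h⟩ else Quotient.mk _ ⟨σ x, hs x h⟩
  have W1 : ∀ (x : Flag G) (h : κ x = 1), W x = Quotient.mk (SameCycle.setoid π) ⟨x, h⟩ := fun x h => dif_pos h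
  have W0 : ∀ (x : Flag G) (h : ¬ κ x = 1), W x = Quotient.mk (SameCycle.setoid π) ⟨σ x, hs x h⟩ :=
    fun x h => dif_neg h
  have hWσ : ∀ p, W (σ p) = W p := by
    intro p
    by_cases h : κ p = 1
    · have h' : ¬ κ (σ p) = 1 := fun h' => (f2_ne (kσ p)).1 h' h
      rw [W0 _ h', W1 _ h]
      congr 1
      apply Subtype.ext
      exact hσ p
    · rw [W1 _ (hs p h), W0 _ h]
  have hWτ : ∀ p, W (τ p) = W p := by
    intro p
    by_cases h : κ p = 1
    · have h' : ¬ κ (τ p) = 1 := fun h' => (f2_ne (kτ p)).1 h' h
      rw [W0 _ h', W1 _ h]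
      apply Quotient.sound
      show π.SameCycle _ _
      have : (⟨σ (τ p), hs _ h'⟩ : Dp κ) = π ⟨p, h⟩ := rfl
      rw [this, sameCycle_apply_left]
    · have h' : κ (τ p) = 1 := (f2_ne (kτ p)).2 h
      rw [W1 _ h', W0 _ h]
      apply Quotient.sound
      show π.SameCycle _ _
      have : (⟨σ p, hs p h⟩ : Dp κ) = π ⟨τ p, h'⟩ := by
        apply Subtype.ext
        show σ p = σ (τ (τ p))
        rw [hτ]
      rw [this, sameCycle_apply_right]
  have gπ : ∀ p : Dp κ, g (π p).1 = g p.1 := by
    intro p
    show g (σ (τ p.1)) = g p.1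
    rw [gσ, gτ]
  have gzpow : ∀ (n : ℕ) (p : Dp κ), g ((π ^ n) p).1 = g p.1 := by
    intro n
    induction n with
    | zero => intro p; rfl
    | succ n ih =>
      intro p
      rw [pow_succ', Equiv.Perm.mul_apply, gπ, ih]
  have gsame : ∀ p q : Dp κ, π.SameCycle p q → g p.1 = g q.1 := by
    intro p q hpq
    obtain ⟨n, hn⟩ := hpq.exists_pow_eq''
    rw [← hn.2.2, gzpow]
  let f : Quotient (SameCycle.setoid π) → Y := Quotient.lift (fun p => g p.1) gsame
  have hf : Function.Bijective f := by
    constructor
    · intro a b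
      induction a using Quotient.ind with
      | _ x =>
        induction b using Quotient.ind with
        | _ y =>
          intro hxy
          have h1 : g x.1 = g y.1 := hxy
          have h2 := hW W hWσ hWτ x.1 y.1 h1
          rw [W1 _ x.2, W1 _ y.2] at h2
          exact h2
    · intro y
      obtain ⟨x, hx⟩ := hg y
      by_cases h : κ x = 1
      · exact ⟨Quotient.mk _ ⟨x, h⟩, hx⟩
      · exact ⟨Quotient.mk _ ⟨σ x, hs x h⟩, (gσ x).trans hx⟩
  exact Nat.card_congr (Equiv.ofBijective f hf)

theorem even_eg [Nontrivial V] (hG : G.Connected) (M : GMap G) (hM : M.Orientable) : ∃ g : ℤ, M.eg = 2 * g := by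
  classical
  obtain ⟨κ, hκ, hκM⟩ := hM
  have ka : ∀ p, κ (across p) ≠ κ p := fun p => (hκ p).1
  have ks : ∀ p, κ (side p) ≠ κ p := fun p => (hκ p).2
  have hF := orbits_pm κ M.nxt across M.nxt_nxt across_across hκM ka M.face (face_surj M) (face_nxt M)
    (face_across M) (by
      intro W h1 h2 p q hpq
      let W' : M.Face → _ := Quot.lift W (by
        rintro x y (h | h)
        · rw [h, h1]
        · rw [h, h2])
      exact congrArg W' hpq)
  have hV := orbits_pm κ M.nxt side M.nxt_nxt side_side hκM ks (fun p => p.1.fst)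
    (by intro v; exact exists_flag hG v) M.nxt_fst (fun p => rfl)
    (fun W h1 h2 p q hpq => vertex_const M W h1 h2 hpq)
  have hE := orbits_pm κ side across side_side across_across ks ka (fun p => erep p.1)
    (by intro e; exact ⟨(e.1, true), erep_rep e⟩) (fun p => rfl) (fun p => erep_symm p.1)
    (by
      intro W h1 h2 p q hpq
      have h3 : ∀ (x : G.Dart) (s t : Bool), W (x, s) = W (x, t) := by
        intro x s t
        have h4 : ∀ s : Bool, W (x, !s) = W (x, s) := fun s => h1 (x, s)
        cases s <;> cases t
        · rfl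
        · exact (h4 false).symm
        · exact h4 false
        · rfl
      have h5 : ∀ (x : G.Dart) (s t : Bool), W (x.symm, s) = W (x, t) := by
        intro x s t
        rw [h3 x.symm s (!t)]
        exact h2 (x, t)
      have h6 : ∀ p : Flag G, W p = W ((erep p.1).1, true) := by
        intro p
        rcases erep_eq p.1 with h | h
        · rw [h]; exact h3 p.1 _ _
        · rw [h]; exact (h5 p.1 _ _).symm
      rw [h6 p, h6 q]
      have : erep p.1 = erep q.1 := hpq
      rw [this])
  -- the signs
  have hmul : pm κ M.nxt across M.nxt_nxt across_across hκM ka =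
      pm κ M.nxt side M.nxt_nxt side_side hκM ks * pm κ side across side_side across_across ks ka := by
    apply Equiv.ext
    intro p
    apply Subtype.ext
    show M.nxt (across p.1) = M.nxt (side (side (across p.1)))
    rw [side_side]
  have hsign := congrArg Equiv.Perm.sign hmul
  rw [map_mul, sign_orbits, sign_orbits, sign_orbits, hF, hV, hE] at hsign
  -- the number of flags of colour one
  have hn : Fintype.card (Dp κ) = 2 * Nat.card G.edgeSet := by
    have h1 := sum_half (fun p : Flag G => side p) side_side side_ne ord (fun p q => ord_inj)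
      (fun p => if κ p = 1 then 1 else 0)
    have h2 : ∀ p : Flag G, (if κ p = 1 then 1 else 0) + (if κ (side p) = 1 then 1 else 0) = 1 := by
      intro p
      by_cases h : κ p = 1
      · rw [if_pos h, if_neg (fun h' => (f2_ne (ks p)).1 h' h)]
      · rw [if_neg h, if_pos ((f2_ne (ks p)).2 h)]
    have h3 := sum_half (fun p : Flag G => side p) side_side side_ne ord (fun p q => ord_inj) (fun _ => (1 : ℕ))
    rw [Finset.sum_congr (rfl : (Finset.univ : Finset {x : Flag G // ord x < ord (side x)}) = Finset.univ)
      (fun r _ => h2 r.1), Finset.sum_const, smul_eq_mul, mul_one, Finset.card_univ,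
      ← Finset.card_filter, ← Fintype.card_subtype] at h1
    simp only [Finset.sum_const, smul_eq_mul, mul_one, Finset.card_univ] at h3
    have h3' : Fintype.card (Flag G) = Fintype.card {x : Flag G // ord x < ord (side x)} * 2 := h3
    have h1' : Fintype.card (Dp κ) = Fintype.card {x : Flag G // ord x < ord (side x)} := h1
    have h9 : Fintype.card (Flag G) = 4 * Nat.card G.edgeSet := by
      rw [Fintype.card_prod, Fintype.card_bool, G.dart_card_eq_twice_card_edges, Nat.card_eq_fintype_card,
        ← SimpleGraph.edgeFinset_card]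
      ring
    omega
  have hE' : Nat.card (ERep G) = Nat.card G.edgeSet := by
    rw [Nat.card_eq_fintype_card, card_ERep]
  rw [hn, hE', ← pow_add] at hsign
  have hpar : Even (2 * Nat.card G.edgeSet + Nat.card M.Face) ↔
      Even (2 * Nat.card G.edgeSet + Nat.card V + (2 * Nat.card G.edgeSet + Nat.card G.edgeSet)) := by
    constructor
    · intro h
      rw [h.neg_one_pow] at hsign
      by_contra hcon
      rw [Nat.not_even_iff_odd] at hcon
      rw [hcon.neg_one_pow] at hsign
      exact absurd hsign (by decide)
    · intro h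
      rw [h.neg_one_pow] at hsign
      by_contra hcon
      rw [Nat.not_even_iff_odd] at hcon
      rw [hcon.neg_one_pow] at hsign
      exact absurd hsign (by decide)
  rw [Nat.even_iff, Nat.even_iff] at hpar
  refine ⟨M.eg / 2, ?_⟩
  unfold GMap.eg
  omega

end Pool.Agent.Helper35.OG
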