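import Pool.Agent.Helper35.OG.Map
import Pool.Agent.Helper35.OG.Abs

/-!
# Basic facts on maps
-/

set_option autoImplicit false

open Finset

namespace Pool.Agent.Helper35.OG

variable {V : Type} {G : SimpleGraph V}

theorem across_across (p : Flag G) : across (across p) = p := by
  rcases p with ⟨x, s⟩
  simp [across]

theorem side_side (p : Flag G) : side (side p) = p := by
  rcases p with ⟨x, s⟩
  simp [side]

theorem across_ne (p : Flag G) : across p ≠ p := by
  rcases p with ⟨x, s⟩
  intro h
  have := congrArg Prod.snd h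
  cases s <;> simp [across] at this

theorem side_ne (p : Flag G) : side p ≠ p := by
  rcases p with ⟨x, s⟩
  intro h
  have := congrArg Prod.snd h
  cases s <;> simp [side] at this

theorem side_fst (p : Flag G) : (side p).1.fst = p.1.fst := rfl

theorem across_fst (p : Flag G) : (across p).1.fst = p.1.snd := rfl

theorem eqvGen_eq {X A : Type} {r : X → X → Prop} (W : X → A) (h : ∀ x y, r x y → W x = W y) {x y : X}
    (hxy : Relation.EqvGen r x y) : W x = W y := by
  induction hxy with
  | rel x y hxy => exact h x y hxy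
  | refl x => rfl
  | symm x y _ ih => exact ih.symm
  | trans x y z _ _ ih1 ih2 => exact ih1.trans ih2

/-- a function invariant under `nxt` and `side` depends on the vertex only -/
theorem vertex_const (M : GMap G) {A : Type} (W : Flag G → A) (h1 : ∀ p, W (M.nxt p) = W p)
    (h2 : ∀ p, W (side p) = W p) {p q : Flag G} (h : p.1.fst = q.1.fst) : W p = W q := by
  refine eqvGen_eq W ?_ (M.conn p q h)
  rintro x y (hxy | hxy)
  · rw [hxy, h1]
  · rw [hxy, h2]

/-- a function invariant under the three involutions is constant -/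
theorem all_const (M : GMap G) (hG : G.Connected) {A : Type} (W : Flag G → A) (h1 : ∀ p, W (M.nxt p) = W p)
    (h2 : ∀ p, W (side p) = W p) (h3 : ∀ p, W (across p) = W p) (p q : Flag G) : W p = W q := by
  have key : ∀ u v : V, G.Reachable u v → ∀ p q : Flag G, p.1.fst = u → q.1.fst = v → W p = W q := by
    rintro u v ⟨w⟩
    induction w with
    | nil =>
      intro p q hp hq
      exact vertex_const M W h1 h2 (hp.trans hq.symm)
    | cons hadj w ih =>
      intro p q hp hq
      rename_i u' v' w'
      have e1 : W p = W ((⟨(u', v'), hadj⟩ : G.Dart), true) := vertex_const M W h1 h2 hp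
      have e2 : W (across ((⟨(u', v'), hadj⟩ : G.Dart), true)) = W ((⟨(u', v'), hadj⟩ : G.Dart), true) := h3 _
      rw [e1, ← e2]
      exact ih _ q rfl hq
  exact key _ _ (hG.preconnected _ _) p q rfl rfl

/-- in a connected graph with two vertices, every vertex has a flag -/
theorem exists_flag [Nontrivial V] (hG : G.Connected) (v : V) : ∃ p : Flag G, p.1.fst = v := by
  obtain ⟨w, hw⟩ := hG.preconnected.exists_adj_of_nontrivial v
  exact ⟨((⟨(v, w), hw⟩ : G.Dart), true), rfl⟩

variable (M : GMap G)

/-- the face of a flag -/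
def GMap.face (p : Flag G) : M.Face := Quot.mk _ p

theorem face_nxt (p : Flag G) : M.face (M.nxt p) = M.face p := by
  symm
  apply Quot.sound
  exact Or.inl rfl

theorem face_across (p : Flag G) : M.face (across p) = M.face p := by
  symm
  apply Quot.sound
  exact Or.inr rfl

theorem face_surj (f : M.Face) : ∃ p, M.face p = f := Quot.exists_rep f

theorem nxt_inj {p q : Flag G} (h : M.nxt p = M.nxt q) : p = q := by
  rw [← M.nxt_nxt p, h, M.nxt_nxt]

section finite

variable [Fintype V] [DecidableEq V] [DecidableRel G.Adj]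

noncomputable instance (M : GMap G) : Fintype M.Face :=
  haveI : Finite M.Face := Quot.finite _
  Fintype.ofFinite _

noncomputable instance (M : GMap G) : DecidableEq M.Face := Classical.decEq _

/-- the sum of an invariant function -/
theorem sum_inv {X : Type} [Fintype X] (σ : X → X) (h1 : ∀ x, σ (σ x) = x) (h2 : ∀ x, σ x ≠ x) (f : X → F2)
    (hf : ∀ x, f (σ x) = f x) : ∑ x, f x = 0 := by
  apply Finset.sum_involution (fun x _ => σ x)
  · intro x _
    rw [hf, f2_add_self]
  · intro x _ _
    exact h2 x
  · intro x _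
    exact Finset.mem_univ _
  · intro x _
    exact h1 x

/-- An auxiliary order on the flags. -/
noncomputable def ord (p : Flag G) : ℕ := (Fintype.equivFin (Flag G) p : ℕ)

theorem ord_inj {p q : Flag G} (h : ord p = ord q) : p = q :=
  (Fintype.equivFin (Flag G)).injective (Fin.ext h)

theorem ord_nxt_ne (p : Flag G) : ord (M.nxt p) ≠ ord p := fun h => M.nxt_ne p (ord_inj h)

/-- The corners of a map, given by one of their flags. -/
abbrev GMap.Rep : Type := {p : Flag G // ord p < ord (M.nxt p)}

/-- The corner of a flag. -/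
noncomputable def GMap.rep (p : Flag G) : M.Rep :=
  if h : ord p < ord (M.nxt p) then ⟨p, h⟩ else ⟨M.nxt p, by
    rw [M.nxt_nxt]
    have := ord_nxt_ne M p
    omega⟩

theorem rep_rep (r : M.Rep) : M.rep r.1 = r := by
  unfold GMap.rep
  rw [dif_pos r.2]

theorem rep_nxt (p : Flag G) : M.rep (M.nxt p) = M.rep p := by
  unfold GMap.rep
  have := ord_nxt_ne M p
  by_cases h : ord p < ord (M.nxt p)
  · rw [dif_pos h, dif_neg (by rw [M.nxt_nxt]; omega)]
    apply Subtype.ext
    exact M.nxt_nxt p
  · rw [dif_neg h, dif_pos (by rw [M.nxt_nxt]; omega)]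

theorem rep_eq (p : Flag G) : (M.rep p).1 = p ∨ (M.rep p).1 = M.nxt p := by
  unfold GMap.rep
  by_cases h : ord p < ord (M.nxt p)
  · rw [dif_pos h]; exact Or.inl rfl
  · rw [dif_neg h]; exact Or.inr rfl

/-- a `nxt`-invariant function at the representative -/
theorem inv_rep {A : Type} (f : Flag G → A) (hf : ∀ p, f (M.nxt p) = f p) (p : Flag G) : f (M.rep p).1 = f p := by
  rcases rep_eq M p with h | h
  · rw [h]
  · rw [h, hf]

theorem sum_rep {A : Type} [AddCommMonoid A] (f : Flag G → A) :
    ∑ p, f p = ∑ r : M.Rep, (f r.1 + f (M.nxt r.1)) := by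
  rw [Finset.sum_add_distrib, ← Finset.sum_filter_add_sum_filter_not Finset.univ (fun p => ord p < ord (M.nxt p))]
  congr 1
  · rw [Finset.sum_subtype (F := inferInstance) (p := fun p : Flag G => ord p < ord (M.nxt p))
      (Finset.univ.filter fun p => ord p < ord (M.nxt p)) (by intro x; simp)]
  · have h1 : ∑ r : M.Rep, f (M.nxt r.1) =
        ∑ p ∈ Finset.univ.filter (fun p => ord p < ord (M.nxt p)), f (M.nxt p) := by
      rw [Finset.sum_subtype (F := inferInstance) (p := fun p : Flag G => ord p < ord (M.nxt p))
        (Finset.univ.filter fun p => ord p < ord (M.nxt p)) (by intro x; simp)]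
    rw [h1]
    apply Finset.sum_nbij' M.nxt M.nxt
    · intro p hp
      rw [Finset.mem_filter] at hp ⊢
      refine ⟨Finset.mem_univ _, ?_⟩
      rw [M.nxt_nxt]
      have := ord_nxt_ne M p
      omega
    · intro p hp
      rw [Finset.mem_filter] at hp ⊢
      refine ⟨Finset.mem_univ _, ?_⟩
      rw [M.nxt_nxt]
      omega
    · intro p _; exact M.nxt_nxt p
    · intro p _; exact M.nxt_nxt p
    · intro p _; rw [M.nxt_nxt]

theorem card_flag : Fintype.card (Flag G) = 2 * Fintype.card M.Rep := by
  have h := sum_rep M (fun _ => (1 : ℕ))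
  simp at h
  rw [mul_comm]
  rw [← h]
  simp

end finite

end Pool.Agent.Helper35.OG
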