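import Pool.Agent.Helper35.OG.Basic

/-!
# A rank count
-/

set_option autoImplicit false

open Finset

namespace Pool.Agent.Helper35.OG

section rank

variable {X Y : Type} [Fintype X] [Fintype Y]

/-- The functions on `X` orthogonal to the columns of `m`. -/
def orth (m : X → Y → F2) : Submodule F2 (X → F2) where
  carrier := {z | ∀ y, ∑ x, z x * m x y = 0}
  add_mem' := by
    intro z z' h h' y
    simp only [Pi.add_apply, add_mul, Finset.sum_add_distrib]
    rw [h y, h' y, add_zero]
  zero_mem' := by intro y; simp
  smul_mem' := by
    intro r z h y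
    simp only [Pi.smul_apply, smul_eq_mul, mul_assoc]
    rw [← Finset.mul_sum, h y, mul_zero]

theorem mem_orth {m : X → Y → F2} {z : X → F2} : z ∈ orth m ↔ ∀ y, ∑ x, z x * m x y = 0 := Iff.rfl

theorem finrank_const_le {Y : Type} [Fintype Y] (K : Submodule F2 (Y → F2))
    (h : ∀ w ∈ K, ∀ y y', w y = w y') : Module.finrank F2 K ≤ 1 := by
  have h1 : K ≤ Submodule.span F2 {(fun _ => 1 : Y → F2)} := by
    intro w hw
    rw [Submodule.mem_span_singleton]
    by_cases hY : Nonempty Y
    · obtain ⟨y0⟩ := hY
      refine ⟨w y0, ?_⟩
      funext y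
      rw [Pi.smul_apply, smul_eq_mul, mul_one]
      exact h w hw _ _
    · refine ⟨0, ?_⟩
      funext y
      exact absurd ⟨y⟩ hY
  calc Module.finrank F2 K ≤ Module.finrank F2 (Submodule.span F2 {(fun _ => 1 : Y → F2)}) :=
        Submodule.finrank_mono h1
    _ ≤ 1 := by
        have := finrank_span_le_card (R := F2) ({(fun _ => 1 : Y → F2)} : Set (Y → F2))
        simpa only [Set.toFinset_singleton, Finset.card_singleton] using this

theorem finrank_orth_le (m : X → Y → F2)
    (hconn : ∀ w : Y → F2, (∀ x, ∑ y, m x y * w y = 0) → ∀ y y', w y = w y') :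
    Module.finrank F2 (orth m) + Fintype.card Y ≤ Fintype.card X + 1 := by
  classical
  let A : Matrix Y X F2 := fun y x => m x y
  have h1 := LinearMap.finrank_range_add_finrank_ker A.mulVecLin
  rw [Module.finrank_fintype_fun_eq_card] at h1
  have h2 := LinearMap.finrank_range_add_finrank_ker A.transpose.mulVecLin
  rw [Module.finrank_fintype_fun_eq_card] at h2
  have h3 : Module.finrank F2 (LinearMap.range A.mulVecLin) =
      Module.finrank F2 (LinearMap.range A.transpose.mulVecLin) := (Matrix.rank_transpose A).symm
  have h4 : Module.finrank F2 (LinearMap.ker A.transpose.mulVecLin) ≤ 1 := by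
    apply finrank_const_le
    intro w hw
    apply hconn
    intro x
    have := congrFun hw x
    exact this
  have h5 : LinearMap.ker A.mulVecLin = orth m := by
    ext z
    rw [LinearMap.mem_ker, mem_orth]
    constructor
    · intro h y
      have h' : ∑ x, m x y * z x = 0 := congrFun h y
      rw [← h']
      apply Finset.sum_congr rfl
      intro x _
      rw [mul_comm]
    · intro h
      funext y
      have h' := h y
      show ∑ x, m x y * z x = 0
      rw [← h']
      apply Finset.sum_congr rfl
      intro x _
      rw [mul_comm]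
  rw [h5] at h1
  omega

end rank

end Pool.Agent.Helper35.OG
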