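import Pool.Agent.Helper35.OG.Orient

/-!
# The multigraph of the arcs on the faces
-/

set_option autoImplicit false

open Finset

namespace Pool.Agent.Helper35.OG

section push

variable {E X Y : Type} [Fintype E] [DecidableEq E] [Fintype X] [DecidableEq X] [Fintype Y] [DecidableEq Y]

theorem bd_push (a b : E → X) (g : X → Y) (x : E → F2) (y : Y) :
    bd (fun e => g (a e)) (fun e => g (b e)) x y = ∑ s, bd a b x s * (if g s = y then 1 else 0) := by
  show ∑ e, x e * ((if g (a e) = y then 1 else 0) + (if g (b e) = y then 1 else 0)) =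
    ∑ s, (∑ e, x e * ((if a e = s then 1 else 0) + (if b e = s then 1 else 0))) * (if g s = y then 1 else 0)
  simp only [Finset.sum_mul]
  rw [Finset.sum_comm]
  apply Finset.sum_congr rfl
  intro e _
  simp only [mul_assoc]
  rw [← Finset.mul_sum]
  congr 1
  simp only [add_mul, ite_mul, one_mul, zero_mul, Finset.sum_add_distrib, Finset.sum_ite_eq, Finset.mem_univ,
    if_true]

end push

variable {V : Type} [Fintype V] [DecidableEq V] {G : SimpleGraph V} [DecidableRel G.Adj]
variable (S T : GMap G)

/-- The form on the corners. -/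
noncomputable def be (r s : S.Rep) : F2 := hf T (cor S r) (cor S s)

theorem be_symm (r s : S.Rep) : be S T r s = be S T s r := hf_symm S T (cor_inv S r) (cor_inv S s)

theorem be_sum (r : S.Rep) : ∑ s, be S T r s = 0 := by
  have h1 := lift_spec S T (cor_inv S r)
  unfold be hf
  rw [Finset.sum_comm]
  have h2 : ∀ p, ∑ s, lift T (cor S r) p * cor S s p = lift T (cor S r) p := by
    intro p
    rw [← Finset.mul_sum]
    unfold cor
    rw [Finset.sum_ite_eq, if_pos (Finset.mem_univ _), mul_one]
  rw [Finset.sum_congr rfl (fun p _ => h2 p)]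
  exact sum_nxt T h1.1

theorem rep_fst (p : Flag G) : (S.rep p).1.1.fst = p.1.fst :=
  inv_rep S (fun p => p.1.fst) (fun p => S.nxt_fst p) p

theorem be_fst {r s : S.Rep} (h : be S T r s = 1) : r.1.1.fst = s.1.1.fst := by
  by_contra hne
  have h1 := lift_spec S T (cor_inv S r)
  unfold be hf at h
  rw [sum_cor] at h
  set L := lift T (cor S r) with hL
  have h2 : ∀ p q : Flag G, p.1.fst = q.1.fst →
      (if p.1.fst = s.1.1.fst then L p else 0) = (if q.1.fst = s.1.1.fst then L q else 0) := by
    intro p q hpq
    apply vertex_const T (fun p => if p.1.fst = s.1.1.fst then L p else 0) _ _ hpq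
    · intro p
      show (if (T.nxt p).1.fst = s.1.1.fst then L (T.nxt p) else 0) = (if p.1.fst = s.1.1.fst then L p else 0)
      rw [T.nxt_fst, h1.1 p]
    · intro p
      show (if (side p).1.fst = s.1.1.fst then L (side p) else 0) = (if p.1.fst = s.1.1.fst then L p else 0)
      rw [side_fst]
      by_cases hp : p.1.fst = s.1.1.fst
      · rw [if_pos hp, if_pos hp]
        have h3 := h1.2 p
        have h4 : ∀ q : Flag G, q.1.fst = s.1.1.fst → cor S r q = 0 := by
          intro q hq
          unfold cor
          rw [if_neg]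
          intro hr
          apply hne
          rw [← hr, rep_fst, hq]
        rw [h4 p hp, h4 (side p) hp, add_zero, add_zero] at h3
        exact h3
      · rw [if_neg hp, if_neg hp]
  have h3 := h2 s.1 (S.nxt s.1) (S.nxt_fst s.1).symm
  rw [if_pos rfl, if_pos (S.nxt_fst s.1)] at h3
  rw [← h3, f2_add_self] at h
  exact zero_ne_one h

/-- The arcs: the pairs of corners which are linked. -/
abbrev Arc : Type := {q : S.Rep × S.Rep // ord q.1.1 < ord q.2.1 ∧ be S T q.1 q.2 = 1}

/-- the first corner of an arc -/
def a0 (q : Arc S T) : S.Rep := q.1.1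

/-- the second corner of an arc -/
def b0 (q : Arc S T) : S.Rep := q.1.2

theorem sum_arc (f : S.Rep → S.Rep → F2) :
    ∑ q : Arc S T, (f (a0 S T q) (b0 S T q) + f (b0 S T q) (a0 S T q)) =
      ∑ r, ∑ s, if r = s then 0 else be S T r s * f r s := by
  classical
  have h1 : ∑ q : Arc S T, (f (a0 S T q) (b0 S T q) + f (b0 S T q) (a0 S T q)) =
      ∑ x : S.Rep × S.Rep, if ord x.1.1 < ord x.2.1 then be S T x.1 x.2 * (f x.1 x.2 + f x.2 x.1) else 0 := by
    have h2 : ∀ x : S.Rep × S.Rep, (if ord x.1.1 < ord x.2.1 then be S T x.1 x.2 * (f x.1 x.2 + f x.2 x.1) else 0) =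
        if ord x.1.1 < ord x.2.1 ∧ be S T x.1 x.2 = 1 then f x.1 x.2 + f x.2 x.1 else 0 := by
      intro x
      by_cases hx : ord x.1.1 < ord x.2.1
      · rcases f2_cases (be S T x.1 x.2) with h | h
        · rw [if_pos hx, h, zero_mul, if_neg (fun h' => zero_ne_one h'.2)]
        · rw [if_pos hx, h, one_mul, if_pos ⟨hx, rfl⟩]
      · rw [if_neg hx, if_neg (fun h' => hx h'.1)]
    rw [Finset.sum_congr rfl (fun x _ => h2 x), ← Finset.sum_filter,
      Finset.sum_subtype (F := inferInstance)
        (p := fun x : S.Rep × S.Rep => ord x.1.1 < ord x.2.1 ∧ be S T x.1 x.2 = 1) _ (by intro x; simp)]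
    rfl
  rw [h1, Fintype.sum_prod_type]
  have h3 : ∀ r s : S.Rep, (if ord r.1 < ord s.1 then be S T r s * (f r s + f s r) else 0) =
      (if ord r.1 < ord s.1 then be S T r s * f r s else 0) +
      (if ord r.1 < ord s.1 then be S T r s * f s r else 0) := by
    intro r s
    by_cases h : ord r.1 < ord s.1
    · rw [if_pos h, if_pos h, if_pos h, mul_add]
    · rw [if_neg h, if_neg h, if_neg h, add_zero]
  have h4 : ∑ r : S.Rep, ∑ s : S.Rep, (if ord r.1 < ord s.1 then be S T r s * f s r else 0) =
      ∑ r : S.Rep, ∑ s : S.Rep, (if ord s.1 < ord r.1 then be S T r s * f r s else 0) := by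
    rw [Finset.sum_comm]
    apply Finset.sum_congr rfl
    intro r _
    apply Finset.sum_congr rfl
    intro s _
    rw [be_symm]
  calc ∑ r : S.Rep, ∑ s : S.Rep, (if ord r.1 < ord s.1 then be S T r s * (f r s + f s r) else 0) =
      ∑ r : S.Rep, ∑ s : S.Rep, ((if ord r.1 < ord s.1 then be S T r s * f r s else 0) +
      (if ord r.1 < ord s.1 then be S T r s * f s r else 0)) := by
        apply Finset.sum_congr rfl
        intro r _
        apply Finset.sum_congr rfl
        intro s _
        exact h3 r s
    _ = ∑ r : S.Rep, ∑ s : S.Rep, (if ord r.1 < ord s.1 then be S T r s * f r s else 0) +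
        ∑ r : S.Rep, ∑ s : S.Rep, (if ord s.1 < ord r.1 then be S T r s * f r s else 0) := by
        rw [← h4]
        simp only [Finset.sum_add_distrib]
    _ = _ := by
        rw [← Finset.sum_add_distrib]
        apply Finset.sum_congr rfl
        intro r _
        rw [← Finset.sum_add_distrib]
        apply Finset.sum_congr rfl
        intro s _
        by_cases hrs : r = s
        · rw [if_pos hrs, hrs, if_neg (lt_irrefl _), add_zero]
        · rw [if_neg hrs]
          have hne : ord r.1 ≠ ord s.1 := fun h => hrs (Subtype.ext (ord_inj h))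
          rcases Nat.lt_or_gt_of_ne hne with h | h
          · rw [if_pos h, if_neg (by omega), add_zero]
          · rw [if_neg (by omega), if_pos h, zero_add]

/-- The corners on a set of arcs. -/
noncomputable def tt : (Arc S T → F2) →ₗ[F2] (S.Rep → F2) := bd (a0 S T) (b0 S T)

/-- The first face of an arc. -/
noncomputable def fa (q : Arc S T) : S.Face := S.face (a0 S T q).1

/-- The second face of an arc. -/
noncomputable def fb (q : Arc S T) : S.Face := S.face (b0 S T q).1

theorem bd_face (x : Arc S T → F2) (f : S.Face) :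
    bd (fa S T) (fb S T) x f = ∑ s, tt S T x s * (if S.face s.1 = f then 1 else 0) :=
  bd_push (a0 S T) (b0 S T) (fun s : S.Rep => S.face s.1) x f

theorem tt_vertex (x : Arc S T → F2) (v : V) : ∑ s, tt S T x s * (if s.1.1.fst = v then 1 else 0) = 0 := by
  have h := bd_push (a0 S T) (b0 S T) (fun s : S.Rep => s.1.1.fst) x v
  refine Eq.trans h.symm ?_
  show ∑ e, x e * ((if (a0 S T e).1.1.fst = v then 1 else 0) + (if (b0 S T e).1.1.fst = v then 1 else 0)) = 0
  apply Finset.sum_eq_zero
  intro e _
  have h1 : (a0 S T e).1.1.fst = (b0 S T e).1.1.fst := be_fst S T e.2.2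
  rw [h1, f2_add_self, mul_zero]

theorem ind_univ_eq : (ind (Finset.univ : Finset (Arc S T))) = fun _ => 1 := by
  funext e
  unfold ind
  rw [if_pos (Finset.mem_univ _)]

theorem tt_univ {κ : Flag G → F2} (hκ : IsBand κ) (hT : ∀ p, κ (T.nxt p) ≠ κ p) :
    tt S T (ind Finset.univ) = bad S κ := by
  funext t
  rw [ind_univ_eq]
  show ∑ e : Arc S T, 1 * ((if a0 S T e = t then 1 else 0) + (if b0 S T e = t then 1 else 0)) = bad S κ t
  simp only [one_mul]
  have h := sum_arc S T (fun r _ => if r = t then 1 else 0)
  refine Eq.trans h ?_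
  rw [Finset.sum_eq_single t]
  · have h1 : ∀ s, (if t = s then 0 else be S T t s * (if t = t then 1 else 0)) =
        be S T t s + (if t = s then be S T t s else 0) := by
      intro s
      by_cases hs : t = s
      · rw [if_pos hs, if_pos hs, f2_add_self]
      · rw [if_neg hs, if_neg hs, if_pos rfl, mul_one, add_zero]
    rw [Finset.sum_congr rfl (fun s _ => h1 s), Finset.sum_add_distrib, be_sum, zero_add, Finset.sum_ite_eq,
      if_pos (Finset.mem_univ _)]
    exact hf_self S T hκ hT t
  · intro r _ hne
    apply Finset.sum_eq_zero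
    intro s _
    rw [if_neg hne, mul_zero, ite_self]
  · intro h; exact absurd (Finset.mem_univ _) h

theorem bd_univ {κ : Flag G → F2} (hκ : IsBand κ) (hT : ∀ p, κ (T.nxt p) ≠ κ p) :
    bd (fa S T) (fb S T) (ind Finset.univ) = 0 := by
  funext f
  rw [bd_face, tt_univ S T hκ hT]
  exact bad_face S hκ f

/-- The indicator of a face. -/
noncomputable def fac (f : S.Face) : Flag G → F2 := fun p => if S.face p = f then 1 else 0

theorem fac_inv (f : S.Face) : NInv S (fac S f) := by
  intro p
  unfold fac
  rw [face_nxt]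

theorem fac_eq (f : S.Face) : fac S f = fun p => ∑ s : S.Rep, (if S.face s.1 = f then 1 else 0) * cor S s p := by
  funext p
  unfold fac cor
  simp only [mul_ite, mul_one, mul_zero]
  rw [Finset.sum_ite_eq, if_pos (Finset.mem_univ _)]
  rw [inv_rep S S.face (face_nxt S) p]

theorem hf_fac (f g : S.Face) : hf T (fac S f) (fac S g) =
    ∑ r, ∑ s, be S T r s * ((if S.face r.1 = f then 1 else 0) * (if S.face s.1 = g then 1 else 0)) := by
  rw [fac_eq S f, hf_sum_left S T Finset.univ _ _ (fun i _ => cor_inv S i) (fac_inv S g), fac_eq S g]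
  apply Finset.sum_congr rfl
  intro r _
  rw [hf_sum_right, Finset.mul_sum]
  apply Finset.sum_congr rfl
  intro s _
  unfold be
  ring

theorem adj_univ {κ : Flag G → F2} (hκ : IsBand κ) (hT : ∀ p, κ (T.nxt p) ≠ κ p) (f g : S.Face) :
    adj (fa S T) (fb S T) Finset.univ f g = hf T (fac S f) (fac S g) := by
  unfold adj
  rw [ind_univ_eq, hf_fac]
  show ∑ e : Arc S T, 1 * ((if fa S T e = f ∧ fb S T e = g then 1 else 0) +
    (if fa S T e = g ∧ fb S T e = f then 1 else 0)) = _
  simp only [one_mul]
  have h := sum_arc S T (fun r s => if S.face r.1 = f ∧ S.face s.1 = g then 1 else 0)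
  have h0 : ∑ e : Arc S T, (((if fa S T e = f ∧ fb S T e = g then 1 else 0) : F2) +
      (if fa S T e = g ∧ fb S T e = f then 1 else 0)) =
      ∑ q : Arc S T, ((fun r s : S.Rep => if S.face r.1 = f ∧ S.face s.1 = g then (1 : F2) else 0) (a0 S T q) (b0 S T q) +
        (fun r s : S.Rep => if S.face r.1 = f ∧ S.face s.1 = g then (1 : F2) else 0) (b0 S T q) (a0 S T q)) := by
    apply Finset.sum_congr rfl
    intro q _
    show ((if fa S T q = f ∧ fb S T q = g then 1 else 0) : F2) + (if fa S T q = g ∧ fb S T q = f then 1 else 0) =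
      (if fa S T q = f ∧ fb S T q = g then 1 else 0) + (if fb S T q = f ∧ fa S T q = g then 1 else 0)
    congr 1
    exact if_congr and_comm rfl rfl
  rw [h0, h]
  -- the diagonal terms
  have h1 : ∀ r s : S.Rep, (if r = s then 0 else be S T r s *
      (if S.face r.1 = f ∧ S.face s.1 = g then (1 : F2) else 0)) =
      be S T r s * ((if S.face r.1 = f then 1 else 0) * (if S.face s.1 = g then 1 else 0)) +
      (if r = s then be S T r s * ((if S.face r.1 = f then 1 else 0) * (if S.face s.1 = g then 1 else 0)) else 0) := by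
    intro r s
    by_cases hrs : r = s
    · rw [if_pos hrs, if_pos hrs, f2_add_self]
    · rw [if_neg hrs, if_neg hrs, add_zero]
      congr 1
      by_cases h1 : S.face r.1 = f
      · by_cases h2 : S.face s.1 = g
        · rw [if_pos ⟨h1, h2⟩, if_pos h1, if_pos h2, mul_one]
        · rw [if_neg (fun h => h2 h.2), if_neg h2, mul_zero]
      · rw [if_neg (fun h => h1 h.1), if_neg h1, zero_mul]
  have h2 : ∑ r : S.Rep, ∑ s : S.Rep, (if r = s then be S T r s *
      ((if S.face r.1 = f then 1 else 0) * (if S.face s.1 = g then 1 else 0)) else 0) = 0 := by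
    have h3 : ∀ r : S.Rep, ∑ s : S.Rep, (if r = s then be S T r s *
        ((if S.face r.1 = f then 1 else 0) * (if S.face s.1 = g then 1 else 0)) else 0) =
        if f = g then bad S κ r * (if S.face r.1 = f then 1 else 0) else 0 := by
      intro r
      rw [Finset.sum_ite_eq, if_pos (Finset.mem_univ _)]
      have hs : be S T r r = bad S κ r := hf_self S T hκ hT r
      rw [hs]
      by_cases hfg : f = g
      · rw [if_pos hfg, ← hfg]
        by_cases h1 : S.face r.1 = f
        · rw [if_pos h1, mul_one]
        · rw [if_neg h1, mul_zero]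
      · rw [if_neg hfg]
        by_cases h1 : S.face r.1 = f
        · have h2 : ¬ S.face r.1 = g := fun h => hfg (h1.symm.trans h)
          rw [if_neg h2, mul_zero, mul_zero]
        · rw [if_neg h1, zero_mul, mul_zero]
    rw [Finset.sum_congr rfl (fun r _ => h3 r)]
    by_cases hfg : f = g
    · simp only [if_pos hfg]
      exact bad_face S hκ f
    · simp only [if_neg hfg]
      exact Finset.sum_const_zero
  calc ∑ r : S.Rep, ∑ s : S.Rep, (if r = s then 0 else be S T r s *
      (if S.face r.1 = f ∧ S.face s.1 = g then (1 : F2) else 0)) =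
      ∑ r : S.Rep, ∑ s : S.Rep, (be S T r s * ((if S.face r.1 = f then 1 else 0) * (if S.face s.1 = g then 1 else 0)) +
      (if r = s then be S T r s * ((if S.face r.1 = f then 1 else 0) * (if S.face s.1 = g then 1 else 0)) else 0)) := by
        apply Finset.sum_congr rfl
        intro r _
        apply Finset.sum_congr rfl
        intro s _
        exact h1 r s
    _ = _ := by
        simp only [Finset.sum_add_distrib]
        rw [h2, add_zero]

end Pool.Agent.Helper35.OG
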