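import Pool.Agent.Helper35.OG.Rank

/-!
# The form of a pair of maps
-/

set_option autoImplicit false

open Finset

namespace Pool.Agent.Helper35.OG

variable {V : Type} [Fintype V] [DecidableEq V] {G : SimpleGraph V} [DecidableRel G.Adj]

/-- Invariance under `nxt`. -/
def NInv (M : GMap G) (P : Flag G → F2) : Prop := ∀ p, P (M.nxt p) = P p

/-- `L` is a chain of corners of `T` with the same boundary (on the edges) as `P`. -/
def IsLift (T : GMap G) (P L : Flag G → F2) : Prop := NInv T L ∧ ∀ p, L (side p) + P (side p) = L p + P p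

theorem sum_nxt (M : GMap G) {P : Flag G → F2} (h : NInv M P) : ∑ p, P p = 0 :=
  sum_inv M.nxt M.nxt_nxt M.nxt_ne P h

theorem sum_side {P : Flag G → F2} (h : ∀ p, P (side p) = P p) : ∑ p, P p = 0 :=
  sum_inv side side_side side_ne P h

theorem sum_across {P : Flag G → F2} (h : ∀ p, P (across p) = P p) : ∑ p, P p = 0 :=
  sum_inv across across_across across_ne P h

theorem sum_side_swap (f g : Flag G → F2) : ∑ p, f (side p) * g p = ∑ p, f p * g (side p) := by
  apply Finset.sum_nbij' side side
  · intro p _; exact Finset.mem_univ _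
  · intro p _; exact Finset.mem_univ _
  · intro p _; exact side_side p
  · intro p _; exact side_side p
  · intro p _; rw [side_side]

theorem exists_lift (S T : GMap G) {P : Flag G → F2} (hP : NInv S P) : ∃ L, IsLift T P L := by
  classical
  let N : Submodule F2 (Flag G → F2) :=
    { carrier := {L | NInv T L}
      add_mem' := by
        intro x y hx hy p
        rw [Pi.add_apply, Pi.add_apply, hx p, hy p]
      zero_mem' := by intro p; rfl
      smul_mem' := by
        intro r x hx p
        rw [Pi.smul_apply, Pi.smul_apply, hx p] }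
  let A : (Flag G → F2) →ₗ[F2] (Flag G → F2) :=
    { toFun := fun L p => L p + L (side p)
      map_add' := by
        intro x y
        funext p
        simp only [Pi.add_apply]
        ring
      map_smul' := by
        intro r x
        funext p
        simp only [Pi.smul_apply, smul_eq_mul, RingHom.id_apply]
        ring }
  by_cases hx : A P ∈ N.map A
  · obtain ⟨L, hL, hLA⟩ := hx
    refine ⟨L, hL, ?_⟩
    intro p
    have h1 : L p + L (side p) = P p + P (side p) := congrFun hLA p
    have h2 : L (side p) = L p + P p + P (side p) := by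
      calc L (side p) = (L p + L p) + L (side p) := by rw [f2_add_self, zero_add]
        _ = L p + (L p + L (side p)) := by ring
        _ = L p + P p + P (side p) := by rw [h1]; ring
    rw [h2]
    calc L p + P p + P (side p) + P (side p) = L p + P p + (P (side p) + P (side p)) := by ring
      _ = L p + P p := by rw [f2_add_self, add_zero]
  · exfalso
    obtain ⟨f, hf1, hf2⟩ := Submodule.exists_dual_map_eq_bot_of_notMem hx inferInstance
    let y : Flag G → F2 := fun p => f (fun j => if p = j then 1 else 0)
    have hfy : ∀ z, f z = ∑ p, z p * y p := by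
      intro z
      rw [LinearMap.pi_apply_eq_sum_univ f z]
      rfl
    let z : Flag G → F2 := fun p => y p + y (side p)
    have hAz : ∀ L, f (A L) = ∑ p, L p * z p := by
      intro L
      rw [hfy]
      show ∑ p, (L p + L (side p)) * y p = ∑ p, L p * (y p + y (side p))
      simp only [add_mul, mul_add, Finset.sum_add_distrib]
      rw [sum_side_swap]
    have hvan : ∀ L, NInv T L → ∑ p, L p * z p = 0 := by
      intro L hL
      rw [← hAz]
      have h1 : f (A L) ∈ (N.map A).map f := Submodule.mem_map_of_mem (Submodule.mem_map_of_mem hL)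
      rw [hf2] at h1
      exact (Submodule.mem_bot F2).1 h1
    have hz1 : ∀ q, z (T.nxt q) = z q := by
      intro q
      have h1 := hvan (fun p => (if p = q then 1 else 0) + (if p = T.nxt q then 1 else 0)) (by
        intro p
        have e1 : (T.nxt p = q) ↔ (p = T.nxt q) := by
          constructor
          · intro h; rw [← h, T.nxt_nxt]
          · intro h; rw [h, T.nxt_nxt]
        have e2 : (T.nxt p = T.nxt q) ↔ (p = q) := ⟨fun h => nxt_inj T h, fun h => by rw [h]⟩
        simp only [e1, e2]
        rw [add_comm])
      simp only [add_mul, ite_mul, one_mul, zero_mul, Finset.sum_add_distrib, Finset.sum_ite_eq',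
        Finset.mem_univ, if_true] at h1
      have h2 : z (T.nxt q) = z q + (z q + z (T.nxt q)) := by
        rw [← add_assoc, f2_add_self, zero_add]
      rw [h2, h1, add_zero]
    have hz2 : ∀ q, z (side q) = z q := by
      intro q
      show y (side q) + y (side (side q)) = y q + y (side q)
      rw [side_side, add_comm]
    have hz3 : ∀ q, z (S.nxt q) = z q := by
      intro q
      exact vertex_const T z hz1 hz2 (S.nxt_fst q)
    apply hf1
    rw [hAz]
    apply sum_nxt S
    intro p
    show P (S.nxt p) * z (S.nxt p) = P p * z p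
    rw [hP p, hz3 p]

/-- A chosen lift. -/
noncomputable def lift (T : GMap G) (P : Flag G → F2) : Flag G → F2 :=
  open Classical in if h : ∃ L, IsLift T P L then Classical.choose h else 0

theorem lift_spec (S T : GMap G) {P : Flag G → F2} (hP : NInv S P) : IsLift T P (lift T P) := by
  have h := exists_lift S T hP
  unfold lift
  rw [dif_pos h]
  exact Classical.choose_spec h

/-- The form. -/
noncomputable def hf (T : GMap G) (P Q : Flag G → F2) : F2 := ∑ p, lift T P p * Q p

theorem isLift_sub {T : GMap G} {P L L' : Flag G → F2} (h : IsLift T P L) (h' : IsLift T P L') {p q : Flag G}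
    (hpq : p.1.fst = q.1.fst) : L p + L' p = L q + L' q := by
  apply vertex_const T (fun p => L p + L' p) _ _ hpq
  · intro p
    show L (T.nxt p) + L' (T.nxt p) = L p + L' p
    rw [h.1 p, h'.1 p]
  · intro p
    show L (side p) + L' (side p) = L p + L' p
    have h1 := h.2 p
    have h2 := h'.2 p
    calc L (side p) + L' (side p) = (L (side p) + P (side p)) + (L' (side p) + P (side p)) := by
          have := f2_add_self (P (side p))
          linear_combination -this
      _ = (L p + P p) + (L' p + P p) := by rw [h1, h2]
      _ = L p + L' p := by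
          have := f2_add_self (P p)
          linear_combination this

theorem hf_eq (S : GMap G) {T : GMap G} {P L Q : Flag G → F2} (h : IsLift T P L) (hQ : NInv S Q) :
    hf T P Q = ∑ p, L p * Q p := by
  have hl : IsLift T P (lift T P) := by
    unfold lift
    have hex : ∃ L, IsLift T P L := ⟨L, h⟩
    rw [dif_pos hex]
    exact Classical.choose_spec hex
  unfold hf
  have h1 : ∑ p, (lift T P p + L p) * Q p = 0 := by
    apply sum_nxt S
    intro p
    show (lift T P (S.nxt p) + L (S.nxt p)) * Q (S.nxt p) = (lift T P p + L p) * Q p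
    rw [isLift_sub hl h (S.nxt_fst p), hQ p]
  simp only [add_mul, Finset.sum_add_distrib] at h1
  calc ∑ p, lift T P p * Q p = ∑ p, lift T P p * Q p + (∑ p, L p * Q p + ∑ p, L p * Q p) := by
        rw [f2_add_self, add_zero]
    _ = (∑ p, lift T P p * Q p + ∑ p, L p * Q p) + ∑ p, L p * Q p := by ring
    _ = ∑ p, L p * Q p := by rw [h1, zero_add]

theorem isLift_sum {T : GMap G} {ι : Type} (s : Finset ι) (t : ι → F2) (P L : ι → Flag G → F2)
    (h : ∀ i ∈ s, IsLift T (P i) (L i)) :
    IsLift T (fun p => ∑ i ∈ s, t i * P i p) (fun p => ∑ i ∈ s, t i * L i p) := by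
  constructor
  · intro p
    apply Finset.sum_congr rfl
    intro i hi
    rw [(h i hi).1 p]
  · intro p
    show ∑ i ∈ s, t i * L i (side p) + ∑ i ∈ s, t i * P i (side p) = ∑ i ∈ s, t i * L i p + ∑ i ∈ s, t i * P i p
    rw [← Finset.sum_add_distrib, ← Finset.sum_add_distrib]
    apply Finset.sum_congr rfl
    intro i hi
    rw [← mul_add, ← mul_add, (h i hi).2 p]

theorem hf_sum_left (S T : GMap G) {ι : Type} (s : Finset ι) (t : ι → F2) (P : ι → Flag G → F2)
    (h : ∀ i ∈ s, NInv S (P i)) {Q : Flag G → F2} (hQ : NInv S Q) :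
    hf T (fun p => ∑ i ∈ s, t i * P i p) Q = ∑ i ∈ s, t i * hf T (P i) Q := by
  rw [hf_eq S (isLift_sum s t P (fun i => lift T (P i)) (fun i hi => lift_spec S T (h i hi))) hQ]
  unfold hf
  simp only [Finset.sum_mul, Finset.mul_sum]
  rw [Finset.sum_comm]
  apply Finset.sum_congr rfl
  intro i _
  apply Finset.sum_congr rfl
  intro p _
  ring

theorem hf_sum_right (T : GMap G) {ι : Type} (s : Finset ι) (t : ι → F2) (P : Flag G → F2)
    (Q : ι → Flag G → F2) :
    hf T P (fun p => ∑ i ∈ s, t i * Q i p) = ∑ i ∈ s, t i * hf T P (Q i) := by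
  unfold hf
  simp only [Finset.mul_sum]
  rw [Finset.sum_comm]
  apply Finset.sum_congr rfl
  intro i _
  apply Finset.sum_congr rfl
  intro p _
  ring

theorem hf_symm (S T : GMap G) {P Q : Flag G → F2} (hP : NInv S P) (hQ : NInv S Q) : hf T P Q = hf T Q P := by
  have h1 := lift_spec S T hP
  have h2 := lift_spec S T hQ
  unfold hf
  set L := lift T P
  set K := lift T Q
  have e1 : ∑ p, P p * Q p = 0 := sum_nxt S (P := fun p => P p * Q p) (fun p => by
    show P (S.nxt p) * Q (S.nxt p) = P p * Q p
    rw [hP p, hQ p])
  have e2 : ∑ p, L p * K p = 0 := sum_nxt T (P := fun p => L p * K p) (fun p => by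
    show L (T.nxt p) * K (T.nxt p) = L p * K p
    rw [h1.1 p, h2.1 p])
  have e3 : ∑ p, (L p + P p) * (K p + Q p) = 0 := sum_side (P := fun p => (L p + P p) * (K p + Q p)) (fun p => by
    show (L (side p) + P (side p)) * (K (side p) + Q (side p)) = (L p + P p) * (K p + Q p)
    rw [h1.2 p, h2.2 p])
  have e4 : ∑ p, (L p + P p) * (K p + Q p) =
      ∑ p, L p * K p + ∑ p, L p * Q p + (∑ p, K p * P p + ∑ p, P p * Q p) := by
    simp only [← Finset.sum_add_distrib]
    apply Finset.sum_congr rfl
    intro p _
    ring
  rw [e3, e1, e2, zero_add, add_zero] at e4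
  calc ∑ p, L p * Q p = ∑ p, L p * Q p + (∑ p, K p * P p + ∑ p, K p * P p) := by rw [f2_add_self, add_zero]
    _ = (∑ p, L p * Q p + ∑ p, K p * P p) + ∑ p, K p * P p := by ring
    _ = ∑ p, K p * P p := by rw [← e4, zero_add]

end Pool.Agent.Helper35.OG
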