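import Mathlib

/-!
# Maps: embeddings of a connected simple graph in closed surfaces

Every cellular embedding of a connected graph `G` in a closed surface is described by its flags and by three
involutions on them.
-/

set_option autoImplicit false

open Finset

namespace Pool.Agent.Helper35.OG

variable {V : Type}

/-- A flag of `G`: a dart together with one of its two sides. -/
abbrev Flag (G : SimpleGraph V) : Type := G.Dart × Bool

variable {G : SimpleGraph V}

/-- The flag at the other end of the edge, on the same side of the edge. -/
def across (p : Flag G) : Flag G := (p.1.symm, !p.2)

/-- The flag at the same end of the edge, on the other side of the edge. -/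
def side (p : Flag G) : Flag G := (p.1, !p.2)

/-- A map of `G`: `nxt` pairs the two flags which bound a corner (the angle between two consecutive edges at a vertex);
the corners and the edges around a vertex form one cyclic sequence. -/
structure GMap (G : SimpleGraph V) where
  /-- the other flag of the corner -/
  nxt : Flag G → Flag G
  nxt_nxt : ∀ p, nxt (nxt p) = p
  nxt_ne : ∀ p, nxt p ≠ p
  nxt_fst : ∀ p, (nxt p).1.fst = p.1.fst
  conn : ∀ p q : Flag G, p.1.fst = q.1.fst → Relation.EqvGen (fun x y => y = nxt x ∨ y = side x) p q

/-- The faces of a map: the classes of the flags under `nxt` and `across`. -/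
def GMap.Face (M : GMap G) : Type := Quot fun p q : Flag G => q = M.nxt p ∨ q = across p

/-- The Euler genus `2 - χ` of the surface of the map. -/
noncomputable def GMap.eg (M : GMap G) : ℤ :=
  2 - (Nat.card V : ℤ) + (Nat.card G.edgeSet : ℤ) - (Nat.card M.Face : ℤ)

/-- `κ` orients every edge band: the two sides, and the two ends, of an edge carry opposite flags. -/
def IsBand (κ : Flag G → ZMod 2) : Prop := ∀ p, κ (across p) ≠ κ p ∧ κ (side p) ≠ κ p

/-- A map is orientable if the flags can be two-coloured so that all three involutions change the colour. -/
def GMap.Orientable (M : GMap G) : Prop := ∃ κ : Flag G → ZMod 2, IsBand κ ∧ ∀ p, κ (M.nxt p) ≠ κ p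

/-- The set of the flags of the corners at which the orientations of the edge bands disagree. -/
def GMap.badFlags (M : GMap G) (κ : Flag G → ZMod 2) : Set (Flag G) := {p | κ (M.nxt p) = κ p}

/-- The number of corners at which the orientations of the edge bands disagree (every corner has two flags). -/
noncomputable def GMap.badCorners (M : GMap G) (κ : Flag G → ZMod 2) : ℕ := Nat.card (M.badFlags κ) / 2

/-- The smallest number of bad corners over all orientations of the edge bands. -/
noncomputable def GMap.defect (M : GMap G) : ℕ := sInf {n | ∃ κ, IsBand κ ∧ M.badCorners κ = n}

/-- The orientable genus of a connected graph: the smallest genus of an orientable map of the graph (the orientable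
surface of genus `g` has Euler genus `2 * g`). -/
noncomputable def orientableGenus (G : SimpleGraph V) : ℕ :=
  sInf {g | ∃ M : GMap G, M.Orientable ∧ M.eg = 2 * (g : ℤ)}

end Pool.Agent.Helper35.OG
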