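import Mathlib

/-!
# Multigraphs: even subgraphs over `ZMod 2`

`E` is the type of the edges, `a e` and `b e` are the ends of the edge `e`.
-/

set_option autoImplicit false

open Finset

namespace Pool.Agent.Helper35.OG

/-- The field with two elements. -/
abbrev F2 : Type := ZMod 2

theorem f2_cases (x : F2) : x = 0 ∨ x = 1 := by
  fin_cases x
  · exact Or.inl rfl
  · exact Or.inr rfl

theorem f2_add_self (x : F2) : x + x = 0 := CharTwo.add_self_eq_zero x

section multi

variable {V E : Type} [Fintype V] [DecidableEq V] [Fintype E] [DecidableEq E]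

/-- The indicator function of a set. -/
def ind (ν : Finset E) : E → F2 := fun e => if e ∈ ν then 1 else 0

/-- The support of a function. -/
def supp (x : E → F2) : Finset E := univ.filter fun e => x e ≠ 0

theorem mem_supp {x : E → F2} {e : E} : e ∈ supp x ↔ x e ≠ 0 := by simp [supp]

theorem ind_supp (x : E → F2) : ind (supp x) = x := by
  funext e
  unfold ind
  rcases f2_cases (x e) with h | h
  · rw [if_neg (by rw [mem_supp, h]; simp), h]
  · rw [if_pos (by rw [mem_supp, h]; exact one_ne_zero), h]

theorem ind_symmDiff (μ ν : Finset E) : ind (symmDiff μ ν) = ind μ + ind ν := by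
  funext e
  rw [Pi.add_apply]
  unfold ind
  by_cases h1 : e ∈ μ <;> by_cases h2 : e ∈ ν <;> simp [Finset.mem_symmDiff, h1, h2, f2_add_self]

theorem ind_sdiff {μ ν : Finset E} (h : ν ⊆ μ) : ind (μ \ ν) = ind μ + ind ν := by
  rw [← ind_symmDiff]
  congr 1
  ext e
  rw [Finset.mem_sdiff, Finset.mem_symmDiff]
  constructor
  · intro h1; exact Or.inl h1
  · rintro (h1 | h1)
    · exact h1
    · exact absurd (h h1.1) h1.2

variable (a b : E → V)

/-- The boundary of a set of edges. -/
def bd : (E → F2) →ₗ[F2] (V → F2) where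
  toFun x v := ∑ e, x e * ((if a e = v then 1 else 0) + (if b e = v then 1 else 0))
  map_add' x y := by
    funext v
    simp only [Pi.add_apply, add_mul, Finset.sum_add_distrib]
  map_smul' c x := by
    funext v
    simp only [Pi.smul_apply, smul_eq_mul, RingHom.id_apply, Finset.mul_sum, mul_assoc]

/-- The number of edges between `u` and `v`, for `u ≠ v`, modulo 2. -/
def adjL (u v : V) : (E → F2) →ₗ[F2] F2 where
  toFun x := ∑ e, x e * ((if a e = u ∧ b e = v then 1 else 0) + (if a e = v ∧ b e = u then 1 else 0))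
  map_add' x y := by
    simp only [Pi.add_apply, add_mul, Finset.sum_add_distrib]
  map_smul' c x := by
    simp only [Pi.smul_apply, smul_eq_mul, RingHom.id_apply, Finset.mul_sum, mul_assoc]

/-- The adjacency matrix of a set of edges. -/
def adj (ν : Finset E) (u v : V) : F2 := adjL a b u v (ind ν)

/-- The degree. -/
def dg (ν : Finset E) (v : V) : ℕ := (ν.filter fun e => a e = v).card + (ν.filter fun e => b e = v).card

theorem bd_ind (ν : Finset E) (v : V) : bd a b (ind ν) v = (dg a b ν v : F2) := by
  show ∑ e, ind ν e * ((if a e = v then 1 else 0) + (if b e = v then 1 else 0)) = _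
  unfold dg ind
  push_cast
  rw [Finset.card_filter, Finset.card_filter]
  push_cast
  rw [← Finset.sum_add_distrib]
  simp only [ite_mul, one_mul, zero_mul]
  rw [Finset.sum_ite_mem, Finset.univ_inter]

theorem dg_even {ν : Finset E} (h : bd a b (ind ν) = 0) (v : V) : Even (dg a b ν v) := by
  have h1 := congrFun h v
  rw [bd_ind] at h1
  exact (ZMod.natCast_eq_zero_iff_even).1 h1

theorem bd_of_even {ν : Finset E} (h : ∀ v, Even (dg a b ν v)) : bd a b (ind ν) = 0 := by
  funext v
  rw [bd_ind]
  exact (ZMod.natCast_eq_zero_iff_even).2 (h v)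

theorem sum_dg (ν : Finset E) : ∑ v, dg a b ν v = 2 * ν.card := by
  unfold dg
  rw [Finset.sum_add_distrib, ← Finset.card_eq_sum_card_fiberwise (fun _ _ => Finset.mem_univ _),
    ← Finset.card_eq_sum_card_fiberwise (fun _ _ => Finset.mem_univ _)]
  ring

theorem dg_mono {μ ν : Finset E} (h : μ ⊆ ν) (v : V) : dg a b μ v ≤ dg a b ν v :=
  Nat.add_le_add (Finset.card_le_card (Finset.filter_subset_filter _ h))
    (Finset.card_le_card (Finset.filter_subset_filter _ h))

theorem dg_union {μ ν : Finset E} (h : Disjoint μ ν) (v : V) : dg a b (μ ∪ ν) v = dg a b μ v + dg a b ν v := by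
  unfold dg
  rw [Finset.filter_union, Finset.filter_union,
    Finset.card_union_of_disjoint (Finset.disjoint_filter_filter h),
    Finset.card_union_of_disjoint (Finset.disjoint_filter_filter h)]
  ring

theorem dg_pos {ν : Finset E} {v : V} (h : 0 < dg a b ν v) : ∃ e ∈ ν, a e = v ∨ b e = v := by
  unfold dg at h
  by_contra hcon
  push Not at hcon
  have h1 : (ν.filter fun e => a e = v) = ∅ := by
    rw [Finset.filter_eq_empty_iff]
    intro e he
    exact (hcon e he).1
  have h2 : (ν.filter fun e => b e = v) = ∅ := by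
    rw [Finset.filter_eq_empty_iff]
    intro e he
    exact (hcon e he).2
  rw [h1, h2] at h
  simp at h

theorem dg_pos_of {ν : Finset E} {v : V} {e : E} (he : e ∈ ν) (h : a e = v ∨ b e = v) : 0 < dg a b ν v := by
  unfold dg
  rcases h with h | h
  · have : 0 < (ν.filter fun e => a e = v).card := Finset.card_pos.2 ⟨e, Finset.mem_filter.2 ⟨he, h⟩⟩
    omega
  · have : 0 < (ν.filter fun e => b e = v).card := Finset.card_pos.2 ⟨e, Finset.mem_filter.2 ⟨he, h⟩⟩
    omega

/-- The vertices of positive degree. -/
def vts (ν : Finset E) : Finset V := univ.filter fun v => 0 < dg a b ν v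

theorem mem_vts {ν : Finset E} {v : V} : v ∈ vts a b ν ↔ 0 < dg a b ν v := by simp [vts]

theorem sum_dg_vts (ν : Finset E) : ∑ v ∈ vts a b ν, dg a b ν v = 2 * ν.card := by
  rw [← sum_dg a b ν]
  apply Finset.sum_subset (Finset.subset_univ _)
  intro v _ hv
  rw [mem_vts] at hv
  omega

theorem two_le_dg {ν : Finset E} (h : bd a b (ind ν) = 0) {v : V} (hv : v ∈ vts a b ν) : 2 ≤ dg a b ν v := by
  have h1 := dg_even a b h v
  rw [mem_vts] at hv
  rcases h1 with ⟨r, hr⟩
  omega

end multi

section dimension

variable {V E : Type} [Fintype V] [DecidableEq V] [Fintype E] [DecidableEq E]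
variable (a b : E → V) {H : Type} [AddCommGroup H] [Module F2 H] (c : (E → F2) →ₗ[F2] H)

/-- a large space of even sets contains a nonzero one of class zero -/
theorem dim_kernel {M : Type} [AddCommGroup M] [Module F2 M] [Module.Finite F2 M] {k : ℕ}
    (hk : Module.finrank F2 ((LinearMap.ker (bd a b)).map c) ≤ k) (Ψ : M →ₗ[F2] (E → F2))
    (hΨ : ∀ x, bd a b (Ψ x) = 0) (h : k < Module.finrank F2 M) : ∃ x, x ≠ 0 ∧ c (Ψ x) = 0 := by
  by_contra hcon
  push Not at hcon
  let f : M →ₗ[F2] ((LinearMap.ker (bd a b)).map c) :=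
    LinearMap.codRestrict _ (c.comp Ψ) (fun x => ⟨Ψ x, hΨ x, rfl⟩)
  have hf : Function.Injective f := by
    rw [← LinearMap.ker_eq_bot, LinearMap.ker_eq_bot']
    intro x hx
    by_contra hne
    apply hcon x hne
    have := congrArg Subtype.val hx
    exact this
  have := LinearMap.finrank_le_finrank_of_injective hf
  omega

/-- extension by zero -/
def ext0 (Q : Finset E) : (Q → F2) →ₗ[F2] (E → F2) where
  toFun x e := if h : e ∈ Q then x ⟨e, h⟩ else 0
  map_add' x y := by
    funext e
    rw [Pi.add_apply]
    by_cases h : e ∈ Q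
    · simp only [dif_pos h, Pi.add_apply]
    · simp only [dif_neg h, add_zero]
  map_smul' r x := by
    funext e
    rw [Pi.smul_apply]
    by_cases h : e ∈ Q
    · simp only [dif_pos h, Pi.smul_apply, RingHom.id_apply]
    · simp only [dif_neg h, smul_zero]

theorem ext0_inj (Q : Finset E) : Function.Injective (ext0 Q) := by
  intro x y h
  funext e
  have := congrFun h e.1
  simpa [ext0] using this

theorem ext0_off {Q : Finset E} (x : Q → F2) {e : E} (he : e ∉ Q) : ext0 Q x e = 0 := by
  simp [ext0, he]

/-- a set of edges which is large against its set of vertices contains a nonempty even set of class zero -/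
theorem exists_even {k : ℕ} (hk : Module.finrank F2 ((LinearMap.ker (bd a b)).map c) ≤ k)
    (Q : Finset E) (U : Finset V) (hQU : ∀ e ∈ Q, a e ∈ U ∧ b e ∈ U) (h : U.card + k < Q.card) :
    ∃ ν ⊆ Q, ν.Nonempty ∧ bd a b (ind ν) = 0 ∧ c (ind ν) = 0 := by
  let r : (Q → F2) →ₗ[F2] (U → F2) := LinearMap.pi fun u => (LinearMap.proj (u : V)).comp ((bd a b).comp (ext0 Q))
  have hr1 : Module.finrank F2 (LinearMap.range r) ≤ U.card := by
    have := (LinearMap.range r).finrank_le
    rwa [Module.finrank_fintype_fun_eq_card, Fintype.card_coe] at this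
  have hr2 := LinearMap.finrank_range_add_finrank_ker r
  rw [Module.finrank_fintype_fun_eq_card, Fintype.card_coe] at hr2
  have hker : k < Module.finrank F2 (LinearMap.ker r) := by omega
  have hb : ∀ x : LinearMap.ker r, bd a b (((ext0 Q).comp (LinearMap.ker r).subtype) x) = 0 := by
    intro x
    funext v
    by_cases hv : v ∈ U
    · have := congrFun x.2 ⟨v, hv⟩
      exact this
    · show ∑ e, (ext0 Q x.1) e * ((if a e = v then 1 else 0) + (if b e = v then 1 else 0)) = 0
      apply Finset.sum_eq_zero
      intro e _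
      by_cases he : e ∈ Q
      · obtain ⟨h1, h2⟩ := hQU e he
        have n1 : ¬ a e = v := fun h' => hv (h' ▸ h1)
        have n2 : ¬ b e = v := fun h' => hv (h' ▸ h2)
        rw [if_neg n1, if_neg n2, add_zero, mul_zero]
      · rw [ext0_off _ he, zero_mul]
  obtain ⟨x, hx0, hx⟩ := dim_kernel a b c hk ((ext0 Q).comp (LinearMap.ker r).subtype) hb hker
  refine ⟨supp (ext0 Q x.1), ?_, ?_, ?_, ?_⟩
  · intro e he
    by_contra h'
    rw [mem_supp] at he
    exact he (ext0_off _ h')
  · by_contra h'
    rw [Finset.not_nonempty_iff_eq_empty] at h'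
    apply hx0
    apply Subtype.ext
    apply ext0_inj Q
    rw [← ind_supp (ext0 Q x.1), h']
    funext e
    simp [ind, ext0]
  · rw [ind_supp]; exact hb x
  · rw [ind_supp]; exact hx

end dimension

end Pool.Agent.Helper35.OG
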