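import Pool.Agent.Helper35.OG.Multi

/-!
# The induction on the vertices of a sparse graph
-/

set_option autoImplicit false

open Finset

namespace Pool.Agent.Helper35.OG

variable {V E : Type} [Fintype V] [DecidableEq V] [Fintype E] [DecidableEq E]
variable (a b : E → V)

/-- The edges of `μ` with both ends in `W`. -/
def sub (μ : Finset E) (W : Finset V) : Finset E := μ.filter fun e => a e ∈ W ∧ b e ∈ W

theorem mem_sub {μ : Finset E} {W : Finset V} {e : E} :
    e ∈ sub a b μ W ↔ e ∈ μ ∧ a e ∈ W ∧ b e ∈ W := by simp [sub]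

/-- The even functions supported on `Q`. -/
def evenSub (Q : Finset E) : Submodule F2 (E → F2) where
  carrier := {x | bd a b x = 0 ∧ ∀ e, e ∉ Q → x e = 0}
  add_mem' := by
    rintro x y ⟨h1, h2⟩ ⟨h3, h4⟩
    refine ⟨by rw [map_add, h1, h3, add_zero], fun e he => ?_⟩
    rw [Pi.add_apply, h2 e he, h4 e he, add_zero]
  zero_mem' := ⟨map_zero _, fun e _ => rfl⟩
  smul_mem' := by
    rintro r x ⟨h1, h2⟩
    refine ⟨by rw [map_smul, h1, smul_zero], fun e he => ?_⟩
    rw [Pi.smul_apply, h2 e he, smul_zero]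

theorem mem_evenSub {Q : Finset E} {x : E → F2} :
    x ∈ evenSub a b Q ↔ bd a b x = 0 ∧ ∀ e, e ∉ Q → x e = 0 := Iff.rfl

theorem evenSub_mono {Q Q' : Finset E} (h : Q ⊆ Q') : evenSub a b Q ≤ evenSub a b Q' := by
  rintro x ⟨h1, h2⟩
  exact ⟨h1, fun e he => h2 e (fun h' => he (h h'))⟩

/-- the edges at a vertex -/
theorem card_inc_le (μ : Finset E) (v : V) : (μ.filter fun e => a e = v ∨ b e = v).card ≤ dg a b μ v := by
  rw [Finset.filter_or]
  exact Finset.card_union_le _ _

theorem sub_erase (μ : Finset E) (W : Finset V) (w : V) :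
    (sub a b μ W).card ≤ (sub a b μ (W.erase w)).card + dg a b μ w := by
  have h : sub a b μ W ⊆ sub a b μ (W.erase w) ∪ (μ.filter fun e => a e = w ∨ b e = w) := by
    intro e he
    rw [mem_sub] at he
    rw [Finset.mem_union, mem_sub, Finset.mem_filter, Finset.mem_erase, Finset.mem_erase]
    by_cases h1 : a e = w
    · exact Or.inr ⟨he.1, Or.inl h1⟩
    · by_cases h2 : b e = w
      · exact Or.inr ⟨he.1, Or.inr h2⟩
      · exact Or.inl ⟨he.1, ⟨h1, he.2.1⟩, ⟨h2, he.2.2⟩⟩
  calc (sub a b μ W).card ≤ _ := Finset.card_le_card h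
    _ ≤ _ := Finset.card_union_le _ _
    _ ≤ _ := Nat.add_le_add_left (card_inc_le a b μ w) _

/-- a vertex of degree one -/
theorem leaf_edge {Q : Finset E} {x : V} (h : dg a b Q x = 1) :
    ∃ e ∈ Q, (a e = x ∨ b e = x) ∧ ∀ e' ∈ Q, (a e' = x ∨ b e' = x) → e' = e := by
  unfold dg at h
  have h0 : ((Q.filter fun e => a e = x).card = 1 ∧ (Q.filter fun e => b e = x).card = 0) ∨
      ((Q.filter fun e => a e = x).card = 0 ∧ (Q.filter fun e => b e = x).card = 1) := by omega
  rcases h0 with ⟨h1, h2⟩ | ⟨h1, h2⟩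
  · rw [Finset.card_eq_one] at h1
    rw [Finset.card_eq_zero, Finset.filter_eq_empty_iff] at h2
    obtain ⟨e, he⟩ := h1
    have he' : e ∈ Q.filter fun e => a e = x := by rw [he]; exact Finset.mem_singleton_self e
    rw [Finset.mem_filter] at he'
    refine ⟨e, he'.1, Or.inl he'.2, ?_⟩
    intro e' h' hh
    rcases hh with hh | hh
    · have : e' ∈ Q.filter fun e => a e = x := Finset.mem_filter.2 ⟨h', hh⟩
      rw [he, Finset.mem_singleton] at this
      exact this
    · exact absurd hh (h2 h')
  · rw [Finset.card_eq_one] at h2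
    rw [Finset.card_eq_zero, Finset.filter_eq_empty_iff] at h1
    obtain ⟨e, he⟩ := h2
    have he' : e ∈ Q.filter fun e => b e = x := by rw [he]; exact Finset.mem_singleton_self e
    rw [Finset.mem_filter] at he'
    refine ⟨e, he'.1, Or.inr he'.2, ?_⟩
    intro e' h' hh
    rcases hh with hh | hh
    · exact absurd hh (h1 h')
    · have : e' ∈ Q.filter fun e => b e = x := Finset.mem_filter.2 ⟨h', hh⟩
      rw [he, Finset.mem_singleton] at this
      exact this

/-- a nonempty set of edges without vertices of degree one contains a nonempty even set -/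
theorem exists_even' {Q : Finset E} (hQ : Q.Nonempty) (h : ∀ x, dg a b Q x ≠ 1) :
    ∃ ν ⊆ Q, ν.Nonempty ∧ bd a b (ind ν) = 0 := by
  have h2 : ∀ v ∈ vts a b Q, 2 ≤ dg a b Q v := by
    intro v hv
    rw [mem_vts] at hv
    have := h v
    omega
  have hs := sum_dg_vts a b Q
  have h3 : ∑ v ∈ vts a b Q, 2 ≤ ∑ v ∈ vts a b Q, dg a b Q v := Finset.sum_le_sum h2
  have h3' : ∑ v ∈ vts a b Q, 2 = (vts a b Q).card * 2 := by rw [Finset.sum_const, smul_eq_mul]
  by_cases hlt : (vts a b Q).card < Q.card
  · have hk : Module.finrank F2 ((LinearMap.ker (bd a b)).map (0 : (E → F2) →ₗ[F2] F2)) ≤ 0 := by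
      rw [Submodule.map_zero, finrank_bot]
    obtain ⟨ν, h4, h5, h6, _⟩ := exists_even a b (0 : (E → F2) →ₗ[F2] F2) hk Q (vts a b Q)
      (by
        intro e he
        exact ⟨(mem_vts a b).2 (dg_pos_of a b he (Or.inl rfl)), (mem_vts a b).2 (dg_pos_of a b he (Or.inr rfl))⟩)
      (by omega)
    exact ⟨ν, h4, h5, h6⟩
  · refine ⟨Q, Finset.Subset.refl _, hQ, bd_of_even a b ?_⟩
    have heq : ∑ v ∈ vts a b Q, 2 = ∑ v ∈ vts a b Q, dg a b Q v := by omega
    have h4 := (Finset.sum_eq_sum_iff_of_le h2).1 heq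
    intro v
    by_cases hv : v ∈ vts a b Q
    · rw [← h4 v hv]; exact ⟨1, rfl⟩
    · rw [mem_vts] at hv
      have : dg a b Q v = 0 := by omega
      rw [this]
      exact ⟨0, rfl⟩

/-- The induction: a sparse graph has a triangular list of adjacent pairs which is almost as long as its number of
edges. -/
theorem step4 (α : V → V → F2) (hα : ∀ u, α u u = 0) (μ : Finset E) (W0 : Finset V)
    (h1 : ∀ e ∈ sub a b μ W0, α (a e) (b e) = 1 ∧ α (b e) (a e) = 1)
    (h2 : ∀ u ∈ W0, ∀ v ∈ W0, α u v = 1 → ∃ e ∈ μ, (a e = u ∧ b e = v) ∨ (a e = v ∧ b e = u))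
    (h3 : ∀ v ∈ W0, 2 ≤ dg a b μ v) : ∀ W : Finset V, W ⊆ W0 →
    ∃ ℓ : List (V × V), (∀ p ∈ ℓ, p.1 ∈ W ∧ p.2 ∈ W ∧ α p.1 p.2 = 1) ∧
      ℓ.Pairwise (fun p q => α p.1 q.2 = 0) ∧
      (sub a b μ W).card ≤ ℓ.length + 2 * Module.finrank F2 (evenSub a b (sub a b μ W)) +
        ∑ v ∈ W, (dg a b μ v - 2) := by
  intro W
  induction W using Finset.strongInduction with
  | _ W ih =>
    intro hW
    have hsub : ∀ e ∈ sub a b μ W, e ∈ sub a b μ W0 := by
      intro e he
      rw [mem_sub] at he ⊢
      exact ⟨he.1, hW he.2.1, hW he.2.2⟩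
    rcases Finset.eq_empty_or_nonempty (sub a b μ W) with hQ | hQ
    · refine ⟨[], ?_, List.Pairwise.nil, ?_⟩
      · intro p hp
        simp at hp
      · rw [hQ]; simp
    by_cases hleaf : ∃ x, dg a b (sub a b μ W) x = 1
    · obtain ⟨x, hx⟩ := hleaf
      obtain ⟨e, he, hex, heu⟩ := leaf_edge a b hx
      -- the other end
      obtain ⟨y, hy⟩ : ∃ y, (a e = x ∧ b e = y) ∨ (a e = y ∧ b e = x) := by
        rcases hex with h | h
        · exact ⟨b e, Or.inl ⟨h, rfl⟩⟩
        · exact ⟨a e, Or.inr ⟨rfl, h⟩⟩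
      have he0 := hsub e he
      have hα1 : α x y = 1 ∧ α y x = 1 := by
        have := h1 e he0
        rcases hy with ⟨h, h'⟩ | ⟨h, h'⟩
        · rw [h, h'] at this; exact this
        · rw [h, h'] at this; exact ⟨this.2, this.1⟩
      have hxy : x ≠ y := by
        intro h
        rw [← h, hα x] at hα1
        exact zero_ne_one hα1.1
      have hem := (mem_sub a b).1 he
      have hxW : x ∈ W := by
        rcases hy with ⟨h, h'⟩ | ⟨h, h'⟩
        · rw [← h]; exact hem.2.1
        · rw [← h']; exact hem.2.2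
      have hyW : y ∈ W := by
        rcases hy with ⟨h, h'⟩ | ⟨h, h'⟩
        · rw [← h']; exact hem.2.2
        · rw [← h]; exact hem.2.1
      -- `x` is adjacent to `y` only
      have hx0 : ∀ v ∈ W, v ≠ y → α x v = 0 ∧ α v x = 0 := by
        intro v hv hvy
        have key : ∀ e' ∈ μ, ((a e' = x ∧ b e' = v) ∨ (a e' = v ∧ b e' = x)) → False := by
          intro e' he' hh
          have hmem : e' ∈ sub a b μ W := by
            rw [mem_sub]
            rcases hh with ⟨h, h'⟩ | ⟨h, h'⟩
            · rw [h, h']; exact ⟨he', hxW, hv⟩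
            · rw [h, h']; exact ⟨he', hv, hxW⟩
          have heq : e' = e := by
            apply heu e' hmem
            rcases hh with ⟨h, h'⟩ | ⟨h, h'⟩
            · exact Or.inl h
            · exact Or.inr h'
          rw [heq] at hh
          rcases hh with ⟨h, h'⟩ | ⟨h, h'⟩
          · rcases hy with ⟨k, k'⟩ | ⟨k, k'⟩
            · exact hvy (h'.symm.trans k')
            · exact hxy (h.symm.trans k)
          · rcases hy with ⟨k, k'⟩ | ⟨k, k'⟩
            · exact hxy (h'.symm.trans k')
            · exact hvy (h.symm.trans k)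
        constructor
        · rcases f2_cases (α x v) with h | h
          · exact h
          · obtain ⟨e', he', hh⟩ := h2 x (hW hxW) v (hW hv) h
            exact (key e' he' hh).elim
        · rcases f2_cases (α v x) with h | h
          · exact h
          · obtain ⟨e', he', hh⟩ := h2 v (hW hv) x (hW hxW) h
            exact (key e' he' hh.symm).elim
      have hss : (W.erase y).erase x ⊂ W := by
        refine Finset.ssubset_of_subset_of_ssubset (Finset.erase_subset _ _) (Finset.erase_ssubset hyW)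
      obtain ⟨ℓ, hℓ1, hℓ2, hℓ3⟩ := ih _ hss (hss.1.trans hW)
      have hmemW : ∀ v ∈ (W.erase y).erase x, v ∈ W ∧ v ≠ y ∧ v ≠ x := by
        intro v hv
        rw [Finset.mem_erase, Finset.mem_erase] at hv
        exact ⟨hv.2.2, hv.2.1, hv.1⟩
      refine ⟨(x, y) :: (ℓ ++ [(y, x)]), ?_, ?_, ?_⟩
      · intro p hp
        rw [List.mem_cons, List.mem_append, List.mem_singleton] at hp
        rcases hp with hp | hp | hp
        · rw [hp]; exact ⟨hxW, hyW, hα1.1⟩
        · obtain ⟨k1, k2, k3⟩ := hℓ1 p hp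
          exact ⟨(hmemW _ k1).1, (hmemW _ k2).1, k3⟩
        · rw [hp]; exact ⟨hyW, hxW, hα1.2⟩
      · rw [List.pairwise_cons]
        refine ⟨?_, ?_⟩
        · intro q hq
          rw [List.mem_append, List.mem_singleton] at hq
          rcases hq with hq | hq
          · obtain ⟨k1, k2, k3⟩ := hℓ1 q hq
            obtain ⟨j1, j2, j3⟩ := hmemW _ k2
            exact (hx0 _ j1 j2).1
          · rw [hq]; exact hα x
        · rw [List.pairwise_append]
          refine ⟨hℓ2, List.pairwise_singleton _ _, ?_⟩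
          intro p hp q hq
          rw [List.mem_singleton] at hq
          obtain ⟨k1, k2, k3⟩ := hℓ1 p hp
          obtain ⟨j1, j2, j3⟩ := hmemW _ k1
          rw [hq]
          exact (hx0 _ j1 j2).2
      · have hs1 := sub_erase a b μ W y
        have hs2 : sub a b μ (W.erase y) = sub a b μ ((W.erase y).erase x) := by
          ext e'
          rw [mem_sub, mem_sub]
          constructor
          · rintro ⟨k1, k2, k3⟩
            have hmem : e' ∈ sub a b μ W := by
              rw [mem_sub]
              exact ⟨k1, Finset.mem_of_mem_erase k2, Finset.mem_of_mem_erase k3⟩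
            have hne : ¬ (a e' = x ∨ b e' = x) := by
              intro hh
              have := heu e' hmem hh
              rw [this] at k2 k3
              rcases hy with ⟨h, h'⟩ | ⟨h, h'⟩
              · rw [h'] at k3; exact (Finset.mem_erase.1 k3).1 rfl
              · rw [h] at k2; exact (Finset.mem_erase.1 k2).1 rfl
            push Not at hne
            exact ⟨k1, Finset.mem_erase.2 ⟨hne.1, k2⟩, Finset.mem_erase.2 ⟨hne.2, k3⟩⟩
          · rintro ⟨k1, k2, k3⟩
            exact ⟨k1, Finset.mem_of_mem_erase k2, Finset.mem_of_mem_erase k3⟩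
        have hs3 : Module.finrank F2 (evenSub a b (sub a b μ ((W.erase y).erase x))) ≤
            Module.finrank F2 (evenSub a b (sub a b μ W)) := by
          apply Submodule.finrank_mono
          apply evenSub_mono
          intro e' he'
          rw [mem_sub] at he' ⊢
          exact ⟨he'.1, (hmemW _ he'.2.1).1, (hmemW _ he'.2.2).1⟩
        have hs4 : ∑ v ∈ W, (dg a b μ v - 2) = ∑ v ∈ W.erase y, (dg a b μ v - 2) + (dg a b μ y - 2) :=
          (Finset.sum_erase_add _ _ hyW).symm
        have hs5 : ∑ v ∈ (W.erase y).erase x, (dg a b μ v - 2) ≤ ∑ v ∈ W.erase y, (dg a b μ v - 2) :=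
          Finset.sum_le_sum_of_subset (Finset.erase_subset _ _)
        have hs6 := h3 y (hW hyW)
        rw [hs2] at hs1
        have hs7 : ((x, y) :: (ℓ ++ [(y, x)])).length = ℓ.length + 2 := by simp
        rw [hs7, hs4]
        omega
    · push Not at hleaf
      obtain ⟨ν, hν1, hν2, hν3⟩ := exists_even' a b hQ hleaf
      obtain ⟨e, he⟩ := hν2
      have heQ := (mem_sub a b).1 (hν1 he)
      have hss : W.erase (a e) ⊂ W := Finset.erase_ssubset heQ.2.1
      obtain ⟨ℓ, hℓ1, hℓ2, hℓ3⟩ := ih _ hss (hss.1.trans hW)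
      refine ⟨ℓ, ?_, hℓ2, ?_⟩
      · intro p hp
        obtain ⟨k1, k2, k3⟩ := hℓ1 p hp
        exact ⟨Finset.mem_of_mem_erase k1, Finset.mem_of_mem_erase k2, k3⟩
      · have hs1 := sub_erase a b μ W (a e)
        have hs3 : Module.finrank F2 (evenSub a b (sub a b μ (W.erase (a e)))) <
            Module.finrank F2 (evenSub a b (sub a b μ W)) := by
          apply Submodule.finrank_lt_finrank_of_lt
          rw [SetLike.lt_iff_le_and_exists]
          refine ⟨evenSub_mono a b ?_, ind ν, ⟨hν3, ?_⟩, ?_⟩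
          · intro e' he'
            rw [mem_sub] at he' ⊢
            exact ⟨he'.1, Finset.mem_of_mem_erase he'.2.1, Finset.mem_of_mem_erase he'.2.2⟩
          · intro e' he'
            unfold ind
            rw [if_neg (fun h => he' (hν1 h))]
          · rintro ⟨_, h'⟩
            have h'' := h' e (by
              rw [mem_sub]
              rintro ⟨_, k2, _⟩
              exact (Finset.mem_erase.1 k2).1 rfl)
            unfold ind at h''
            rw [if_pos he] at h''
            exact one_ne_zero h''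
        have hs4 : ∑ v ∈ W, (dg a b μ v - 2) = ∑ v ∈ W.erase (a e), (dg a b μ v - 2) + (dg a b μ (a e) - 2) :=
          (Finset.sum_erase_add _ _ heQ.2.1).symm
        have hs6 := h3 (a e) (hW heQ.2.1)
        rw [hs4]
        omega

end Pool.Agent.Helper35.OG
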