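import Pool.Agent.Helper35.OG.Dims

/-!
# A triangular family of faces bounds the genus of the second map from below
-/

set_option autoImplicit false

open Finset

namespace Pool.Agent.Helper35.OG

variable {V : Type} [Fintype V] [DecidableEq V] {G : SimpleGraph V} [DecidableRel G.Adj]
variable (S T : GMap G)

/-- The incidences of the edges with the vertices. -/
noncomputable def einc (e : ERep G) (v : V) : F2 := (if e.1.fst = v then 1 else 0) + (if e.1.snd = v then 1 else 0)

theorem finrank_orth_einc [Nontrivial V] (hG : G.Connected) (S : GMap G) :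
    Module.finrank F2 (orth (einc (G := G))) + Nat.card V ≤ Nat.card G.edgeSet + 1 := by
  have h := finrank_orth_le (einc (G := G)) (by
    intro w hw
    have h1 : ∀ e : ERep G, w e.1.fst = w e.1.snd := by
      intro e
      have h2 := hw e
      unfold einc at h2
      simp only [add_mul, ite_mul, one_mul, zero_mul, Finset.sum_add_distrib, Finset.sum_ite_eq, Finset.mem_univ,
        if_true] at h2
      calc w e.1.fst = w e.1.fst + (w e.1.snd + w e.1.snd) := by rw [f2_add_self, add_zero]
        _ = (w e.1.fst + w e.1.snd) + w e.1.snd := by ring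
        _ = w e.1.snd := by rw [h2, zero_add]
    have h2 : ∀ x : G.Dart, w x.snd = w x.fst := by
      intro x
      have h3 := h1 (erep x)
      rcases erep_eq x with h | h
      · rw [h] at h3; exact h3.symm
      · rw [h] at h3; exact h3
    have h3 := all_const S hG (fun p => w p.1.fst)
      (by intro p; show w (S.nxt p).1.fst = w p.1.fst; rw [S.nxt_fst])
      (by intro p; rfl)
      (by intro p; exact h2 p.1)
    intro y y'
    obtain ⟨p, hp⟩ := exists_flag hG y
    obtain ⟨q, hq⟩ := exists_flag hG y'
    rw [← hp, ← hq]
    exact h3 p q)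
  rw [card_ERep, Nat.card_eq_fintype_card]
  exact h

/-- A combination of faces of `S` and of faces of `T`. -/
noncomputable def qf {N : ℕ} (f : Fin N → S.Face) (x : (Fin N → F2) × (T.Face → F2)) (p : Flag G) : F2 :=
  (∑ i, x.1 i * fac S (f i) p) + x.2 (T.face p)

theorem qf_across {N : ℕ} (f : Fin N → S.Face) (x : (Fin N → F2) × (T.Face → F2)) (p : Flag G) :
    qf S T f x (across p) = qf S T f x p := by
  unfold qf fac
  rw [face_across]
  simp only [face_across]

/-- The boundary of a combination of faces. -/
noncomputable def phi {N : ℕ} (f : Fin N → S.Face) : ((Fin N → F2) × (T.Face → F2)) →ₗ[F2] (ERep G → F2) where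
  toFun x e := qf S T f x (e.1, true) + qf S T f x (e.1, false)
  map_add' x y := by
    funext e
    unfold qf
    simp only [Prod.fst_add, Prod.snd_add, Pi.add_apply, add_mul, Finset.sum_add_distrib]
    ring
  map_smul' c x := by
    funext e
    unfold qf
    simp only [Prod.smul_fst, Prod.smul_snd, Pi.smul_apply, smul_eq_mul, RingHom.id_apply, mul_assoc,
      ← Finset.mul_sum, mul_add]

theorem phi_dart {N : ℕ} (f : Fin N → S.Face) (x : (Fin N → F2) × (T.Face → F2)) (d : G.Dart) :
    qf S T f x (d.symm, true) + qf S T f x (d.symm, false) = qf S T f x (d, true) + qf S T f x (d, false) := by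
  have h1 : qf S T f x (d.symm, false) = qf S T f x (d, true) := qf_across S T f x (d, true)
  have h2 : qf S T f x (d.symm, true) = qf S T f x (d, false) := qf_across S T f x (d, false)
  rw [h1, h2, add_comm]

theorem phi_range {N : ℕ} (f : Fin N → S.Face) : LinearMap.range (phi S T f) ≤ orth (einc (G := G)) := by
  rintro _ ⟨x, rfl⟩
  rw [mem_orth]
  intro v
  have h1 : ∑ d : G.Dart, (qf S T f x (d, true) + qf S T f x (d, false)) * (if d.fst = v then 1 else 0) = 0 := by
    have h2 : ∑ p : Flag G, qf S T f x p * (if p.1.fst = v then 1 else 0) = 0 := by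
      have h3 : ∑ p : Flag G, (∑ i, x.1 i * fac S (f i) p) * (if p.1.fst = v then 1 else 0) = 0 :=
        sum_nxt S (P := fun p : Flag G => (∑ i, x.1 i * fac S (f i) p) * (if p.1.fst = v then 1 else 0)) (by
          intro p
          show (∑ i, x.1 i * fac S (f i) (S.nxt p)) * (if (S.nxt p).1.fst = v then 1 else 0) =
            (∑ i, x.1 i * fac S (f i) p) * (if p.1.fst = v then 1 else 0)
          rw [S.nxt_fst]
          congr 1
          apply Finset.sum_congr rfl
          intro i _
          rw [fac_inv S (f i) p])
      have h4 : ∑ p : Flag G, x.2 (T.face p) * (if p.1.fst = v then 1 else 0) = 0 :=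
        sum_nxt T (P := fun p : Flag G => x.2 (T.face p) * (if p.1.fst = v then 1 else 0)) (by
          intro p
          show x.2 (T.face (T.nxt p)) * (if (T.nxt p).1.fst = v then 1 else 0) =
            x.2 (T.face p) * (if p.1.fst = v then 1 else 0)
          rw [T.nxt_fst, face_nxt])
      unfold qf
      simp only [add_mul, Finset.sum_add_distrib]
      rw [h3, h4, add_zero]
    rw [Fintype.sum_prod_type] at h2
    refine Eq.trans ?_ h2
    apply Finset.sum_congr rfl
    intro d _
    rw [Fintype.sum_bool]
    show _ = qf S T f x (d, true) * (if d.fst = v then 1 else 0) + qf S T f x (d, false) * (if d.fst = v then 1 else 0)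
    rw [add_mul]
  rw [sum_half (fun d : G.Dart => d.symm) (fun d => d.symm_symm) symm_ne dord dord_inj] at h1
  refine Eq.trans ?_ h1
  apply Finset.sum_congr rfl
  intro e _
  show (qf S T f x (e.1, true) + qf S T f x (e.1, false)) *
      ((if e.1.fst = v then 1 else 0) + (if e.1.snd = v then 1 else 0)) =
    (qf S T f x (e.1, true) + qf S T f x (e.1, false)) * (if e.1.fst = v then 1 else 0) +
      (qf S T f x (e.1.symm, true) + qf S T f x (e.1.symm, false)) * (if e.1.symm.fst = v then 1 else 0)
  rw [phi_dart, mul_add]
  rfl

theorem ker_phi {N : ℕ} (f g : Fin N → S.Face) (h1 : ∀ i, hf T (fac S (f i)) (fac S (g i)) = 1)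
    (h2 : ∀ i j, i < j → hf T (fac S (f i)) (fac S (g j)) = 0) {x : (Fin N → F2) × (T.Face → F2)}
    (hx : phi S T f x = 0) : x.1 = 0 ∧ ∀ p, x.2 (T.face (side p)) = x.2 (T.face p) := by
  have h3 : ∀ d : G.Dart, qf S T f x (d, true) + qf S T f x (d, false) = 0 := by
    intro d
    have h4 : qf S T f x ((erep d).1, true) + qf S T f x ((erep d).1, false) = 0 := congrFun hx (erep d)
    rcases erep_eq d with h | h
    · rw [h] at h4; exact h4
    · rw [h, phi_dart] at h4; exact h4
  have h4 : ∀ p, qf S T f x (side p) = qf S T f x p := by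
    rintro ⟨d, s⟩
    have h5 := h3 d
    have h6 : qf S T f x (d, true) = qf S T f x (d, false) := by
      calc qf S T f x (d, true) = qf S T f x (d, true) + (qf S T f x (d, false) + qf S T f x (d, false)) := by
            rw [f2_add_self, add_zero]
        _ = (qf S T f x (d, true) + qf S T f x (d, false)) + qf S T f x (d, false) := by ring
        _ = qf S T f x (d, false) := by rw [h5, zero_add]
    cases s
    · exact h6
    · exact h6.symm
  have hlift : IsLift T (fun p => ∑ i, x.1 i * fac S (f i) p) (fun p => x.2 (T.face p)) := by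
    constructor
    · intro p
      show x.2 (T.face (T.nxt p)) = x.2 (T.face p)
      rw [face_nxt]
    · intro p
      have := h4 p
      unfold qf at this
      show x.2 (T.face (side p)) + ∑ i, x.1 i * fac S (f i) (side p) = x.2 (T.face p) + ∑ i, x.1 i * fac S (f i) p
      rw [add_comm, this, add_comm]
  have h5 : ∀ gg : S.Face, ∑ i, x.1 i * hf T (fac S (f i)) (fac S gg) = 0 := by
    intro gg
    rw [← hf_sum_left S T Finset.univ x.1 (fun i => fac S (f i)) (fun i _ => fac_inv S (f i)) (fac_inv S gg),
      hf_eq S hlift (fac_inv S gg)]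
    apply sum_across (P := fun p => x.2 (T.face p) * fac S gg p)
    intro p
    show x.2 (T.face (across p)) * fac S gg (across p) = x.2 (T.face p) * fac S gg p
    unfold fac
    rw [face_across, face_across]
  have h6 : x.1 = 0 := by
    by_contra hne
    have hex : ∃ i, x.1 i ≠ 0 := by
      by_contra h
      push Not at h
      exact hne (funext h)
    obtain ⟨j, hj1, hj2⟩ := Set.exists_max_image {i | x.1 i ≠ 0} id (Set.toFinite _) hex
    have h7 := h5 (g j)
    rw [Finset.sum_eq_single j] at h7
    · rw [h1, mul_one] at h7
      exact hj1 h7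
    · intro i _ hij
      rcases lt_or_gt_of_ne hij with h | h
      · rw [h2 i j h, mul_zero]
      · have h8 : x.1 i = 0 := by
          by_contra h8
          have := hj2 i h8
          exact absurd this (not_le.2 h)
        rw [h8, zero_mul]
    · intro h; exact absurd (Finset.mem_univ _) h
  refine ⟨h6, ?_⟩
  intro p
  have h7 := h4 p
  unfold qf at h7
  rw [h6] at h7
  simpa using h7

theorem tri_bound [Nontrivial V] (hG : G.Connected) (ℓ : List (S.Face × S.Face))
    (h1 : ∀ p ∈ ℓ, hf T (fac S p.1) (fac S p.2) = 1)
    (h2 : ℓ.Pairwise (fun p q => hf T (fac S p.1) (fac S q.2) = 0)) : (ℓ.length : ℤ) ≤ T.eg := by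
  let f : Fin ℓ.length → S.Face := fun i => (ℓ.get i).1
  let g : Fin ℓ.length → S.Face := fun i => (ℓ.get i).2
  have h3 : ∀ i, hf T (fac S (f i)) (fac S (g i)) = 1 := fun i => h1 _ (List.get_mem ℓ i)
  have h4 : ∀ i j, i < j → hf T (fac S (f i)) (fac S (g j)) = 0 := by
    intro i j hij
    exact (List.pairwise_iff_get.1 h2) i j hij
  have h5 := LinearMap.finrank_range_add_finrank_ker (phi S T f)
  rw [Module.finrank_prod, Module.finrank_fintype_fun_eq_card, Module.finrank_fintype_fun_eq_card,
    Fintype.card_fin] at h5
  have h6 := Submodule.finrank_mono (phi_range S T f)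
  have h7 := finrank_orth_einc hG S
  have h8 : Module.finrank F2 (LinearMap.ker (phi S T f)) ≤ 1 := by
    let K : Submodule F2 (T.Face → F2) :=
      { carrier := {B | ∀ y y', B y = B y'}
        add_mem' := by
          intro a b ha hb y y'
          rw [Pi.add_apply, Pi.add_apply, ha y y', hb y y']
        zero_mem' := by intro y y'; rfl
        smul_mem' := by
          intro r a ha y y'
          rw [Pi.smul_apply, Pi.smul_apply, ha y y'] }
    have hK : Module.finrank F2 K ≤ 1 := finrank_const_le K (fun w hw => hw)
    have hconst : ∀ x ∈ LinearMap.ker (phi S T f), ∀ y y', x.2 y = x.2 y' := by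
      intro x hx y y'
      obtain ⟨_, h10⟩ := ker_phi S T f g h3 h4 hx
      obtain ⟨p, hp⟩ := face_surj T y
      obtain ⟨q, hq⟩ := face_surj T y'
      rw [← hp, ← hq]
      exact all_const T hG (fun p => x.2 (T.face p))
        (by intro p; show x.2 (T.face (T.nxt p)) = x.2 (T.face p); rw [face_nxt]) h10
        (by intro p; show x.2 (T.face (across p)) = x.2 (T.face p); rw [face_across]) p q
    let u : LinearMap.ker (phi S T f) →ₗ[F2] K :=
      { toFun := fun x => ⟨x.1.2, hconst x.1 x.2⟩
        map_add' := by intro x y; rfl
        map_smul' := by intro c x; rfl }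
    have hu : Function.Injective u := by
      intro x y hxy
      apply Subtype.ext
      apply Prod.ext
      · rw [(ker_phi S T f g h3 h4 x.2).1, (ker_phi S T f g h3 h4 y.2).1]
      · exact congrArg Subtype.val hxy
    exact (LinearMap.finrank_le_finrank_of_injective hu).trans hK
  have h9 : Nat.card T.Face = Fintype.card T.Face := Nat.card_eq_fintype_card
  unfold GMap.eg
  omega

end Pool.Agent.Helper35.OG
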